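import Pool.Agent.Lib.MP_216314_pr.K.KEvt

/-!
# If the class of the marked gap is infinite then the lifted cluster of the origin is large

Otherwise the faces of the cluster do not reach the two ends of the cylinder, and the class is contained in the set of the
faces of the cluster at height `0`.
-/

set_option autoImplicit false

noncomputable section

namespace CY

open Finset FKI FKP

/-- the face `(k, y)` is a vertex of the lifted cluster of the origin -/
def PF (n : ℕ) (ω : Finset Edge) (k y : ℤ) : Prop :=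
  ∃ v : ℤ × ℤ, (lgr n ω).Reachable (0, 0) v ∧ v.1 - v.2 = k ∧ v.1 + v.2 = y

theorem pf_adj {n : ℕ} {ω : Finset Edge} {e : Edge} (he : red n e ∈ ω) {k y k' y' : ℤ}
    (h1 : (ea e).1 - (ea e).2 = k) (h2 : (ea e).1 + (ea e).2 = y) (h3 : (eb e).1 - (eb e).2 = k')
    (h4 : (eb e).1 + (eb e).2 = y') : PF n ω k y ↔ PF n ω k' y' := by
  have hne : ea e ≠ eb e := by
    obtain ⟨a, b, c⟩ := e
    intro h
    have e1 := congrArg Prod.fst h
    have e2 := congrArg Prod.snd h
    cases c <;> simp [ea, eb] at e1 e2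
  have hadj : (lgr n ω).Adj (ea e) (eb e) := by
    unfold lgr
    rw [SimpleGraph.fromRel_adj]
    exact ⟨hne, Or.inl ⟨e, he, rfl, rfl⟩⟩
  constructor
  · rintro ⟨v, hv, h5, h6⟩
    have : v = ea e := Prod.ext (by omega) (by omega)
    rw [this] at hv
    exact ⟨eb e, hv.trans hadj.reachable, h3, h4⟩
  · rintro ⟨v, hv, h5, h6⟩
    have : v = eb e := Prod.ext (by omega) (by omega)
    rw [this] at hv
    exact ⟨ea e, hv.trans hadj.symm.reachable, h1, h2⟩

theorem pf_even {n : ℕ} {ω : Finset Edge} {k y : ℤ} (h : PF n ω k y) : (k + y) % 2 = 0 := by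
  obtain ⟨v, _, h1, h2⟩ := h
  omega

theorem pf_diag (n : ℕ) (ω : Finset Edge) (k y : ℤ) : (DG n ω k y → (PF n ω k y ↔ PF n ω (k + 1) (y + 1))) ∧
    (¬ DG n ω k y → (PF n ω k (y + 1) ↔ PF n ω (k + 1) y)) := by
  by_cases hp : (k + y) % 2 = 0
  · constructor
    · intro hd
      have he := hd.1 hp
      rw [te_even hp] at he
      refine pf_adj he ?_ ?_ ?_ ?_
      · show (k + y) / 2 - (y - k) / 2 = k
        omega
      · show (k + y) / 2 + (y - k) / 2 = y
        omega
      · show (k + y) / 2 + 1 - (y - k) / 2 = k + 1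
        omega
      · show (k + y) / 2 + 1 + (y - k) / 2 = y + 1
        omega
    · intro _
      constructor
      · intro h
        have := pf_even h
        omega
      · intro h
        have := pf_even h
        omega
  · constructor
    · intro _
      constructor
      · intro h
        exact absurd (pf_even h) hp
      · intro h
        have := pf_even h
        omega
    · intro hd
      have he : red n (te k y) ∈ ω := by
        by_contra hc
        exact hd ⟨fun c => absurd c hp, fun c => absurd c hc⟩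
      rw [te_odd hp] at he
      refine (pf_adj he ?_ ?_ ?_ ?_).symm
      · show (k + y + 1) / 2 - (y - k - 1) / 2 = k + 1
        omega
      · show (k + y + 1) / 2 + (y - k - 1) / 2 = y
        omega
      · show (k + y + 1) / 2 - ((y - k - 1) / 2 + 1) = k
        omega
      · show (k + y + 1) / 2 + ((y - k - 1) / 2 + 1) = y + 1
        omega

theorem gen_iff {X : Type} {r : X → X → Prop} {Q : X → Prop} (h : ∀ u v, r u v → (Q u ↔ Q v)) {u v : X}
    (huv : Relation.EqvGen r u v) : Q u ↔ Q v := by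
  induction huv with
  | rel u v h1 => exact h u v h1
  | refl u => exact Iff.rfl
  | symm u v _ ih => exact ih.symm
  | trans u v w _ _ ih1 ih2 => exact ih1.trans ih2

/-- the class is infinite only if the cluster is large -/
theorem far_of_infinite {n m : ℕ} (hn : 1 ≤ n) (hm : n ≤ m) {α : Pat (2 * n)} {ω : Finset Edge}
    (h : (KCl n m α ω).Infinite) :
    ∃ v : ℤ × ℤ, (lgr n ω).Reachable (0, 0) v ∧ ((n : ℤ) ≤ 2 * |v.1| ∨ (n : ℤ) ≤ 2 * |v.2|) := by
  by_contra hc
  push Not at hc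
  have bd : ∀ k y : ℤ, PF n ω k y → -(n : ℤ) < k ∧ k < n ∧ -(n : ℤ) < y ∧ y < n := by
    rintro k y ⟨v, hv, h1, h2⟩
    obtain ⟨h3, h4⟩ := hc v hv
    rcases abs_cases v.1 with h5 | h5 <;> rcases abs_cases v.2 with h6 | h6 <;> omega
  have bot : ∀ k : ℤ, ¬ PF n ω k (-(2 * (m : ℤ))) := by
    intro k hk
    have := bd _ _ hk
    omega
  have top : ∀ k : ℤ, ¬ PF n ω k (2 * (m : ℤ)) := by
    intro k hk
    have := bd _ _ hk
    omega
  have low : ∀ u v : ℤ × ℕ, FE (Reg α) (2 * n) (tlo n m ω) (2 * m) u v →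
      (PF n ω u.1 ((u.2 : ℤ) - 2 * m) ↔ PF n ω v.1 ((v.2 : ℤ) - 2 * m)) := by
    rintro u v (⟨h1, h2, _⟩ | ⟨h, k, _, _, j, ⟨h1, h2, h3⟩ | ⟨h1, h2, h3⟩⟩)
    · rw [h1, h2]
      have e : (((0 : ℕ) : ℤ) - 2 * m) = -(2 * (m : ℤ)) := by omega
      rw [e]
      exact ⟨fun c => absurd c (bot _), fun c => absurd c (bot _)⟩
    · have hd : DG n ω (j * (2 * n : ℕ) + k) ((h : ℤ) - 2 * m) := by
        rw [dg_shift hn]
        by_contra c
        exact h1 c
      have := (pf_diag n ω _ _).1 hd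
      rw [h2, h3]
      have e : (((h + 1 : ℕ) : ℤ) - 2 * m) = (h : ℤ) - 2 * m + 1 := by push_cast; ring
      show PF n ω (j * (2 * n : ℕ) + k) ((h : ℤ) - 2 * m) ↔
        PF n ω (j * (2 * n : ℕ) + k + 1) (((h + 1 : ℕ) : ℤ) - 2 * m)
      rw [e]
      exact this
    · have hd : ¬ DG n ω (j * (2 * n : ℕ) + k) ((h : ℤ) - 2 * m) := by
        rw [dg_shift hn]
        exact h1
      have := (pf_diag n ω _ _).2 hd
      rw [h2, h3]
      have e : (((h + 1 : ℕ) : ℤ) - 2 * m) = (h : ℤ) - 2 * m + 1 := by push_cast; ring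
      show PF n ω (j * (2 * n : ℕ) + k) (((h + 1 : ℕ) : ℤ) - 2 * m) ↔
        PF n ω (j * (2 * n : ℕ) + k + 1) ((h : ℤ) - 2 * m)
      rw [e]
      exact this
  have upp : ∀ u v : ℤ × ℕ, FE (Reg α) (2 * n) (tup n m ω) (2 * m) u v →
      (PF n ω u.1 (2 * (m : ℤ) - u.2) ↔ PF n ω v.1 (2 * (m : ℤ) - v.2)) := by
    rintro u v (⟨h1, h2, _⟩ | ⟨h, k, _, _, j, ⟨h1, h2, h3⟩ | ⟨h1, h2, h3⟩⟩)
    · rw [h1, h2]
      have e : (2 * (m : ℤ) - ((0 : ℕ) : ℤ)) = 2 * (m : ℤ) := by omega
      rw [e]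
      exact ⟨fun c => absurd c (top _), fun c => absurd c (top _)⟩
    · have hd : ¬ DG n ω (j * (2 * n : ℕ) + k) (2 * (m : ℤ) - 1 - h) := by
        rw [dg_shift hn]
        exact h1
      have := (pf_diag n ω _ _).2 hd
      rw [h2, h3]
      have e1 : 2 * (m : ℤ) - 1 - h + 1 = 2 * m - h := by ring
      have e2 : (2 * (m : ℤ) - ((h + 1 : ℕ) : ℤ)) = 2 * m - 1 - h := by push_cast; ring
      rw [e1] at this
      show PF n ω (j * (2 * n : ℕ) + k) (2 * (m : ℤ) - h) ↔
        PF n ω (j * (2 * n : ℕ) + k + 1) (2 * (m : ℤ) - ((h + 1 : ℕ) : ℤ))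
      rw [e2]
      exact this
    · have hd : DG n ω (j * (2 * n : ℕ) + k) (2 * (m : ℤ) - 1 - h) := by
        rw [dg_shift hn]
        exact h1
      have := (pf_diag n ω _ _).1 hd
      rw [h2, h3]
      have e1 : 2 * (m : ℤ) - 1 - h + 1 = 2 * m - h := by ring
      have e2 : (2 * (m : ℤ) - ((h + 1 : ℕ) : ℤ)) = 2 * m - 1 - h := by push_cast; ring
      rw [e1] at this
      show PF n ω (j * (2 * n : ℕ) + k) (2 * (m : ℤ) - ((h + 1 : ℕ) : ℤ)) ↔
        PF n ω (j * (2 * n : ℕ) + k + 1) (2 * (m : ℤ) - h)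
      rw [e2]
      exact this
  have hsub : ∀ k ∈ KCl n m α ω, PF n ω k 0 := by
    intro k hk
    unfold KCl gcls at hk
    rw [Set.mem_setOf_eq] at hk
    induction hk with
    | refl => exact ⟨(0, 0), SimpleGraph.Reachable.refl _, by simp, by simp⟩
    | @tail b c _ hbc ih =>
      rcases hbc with hbc | hbc
      · have h1 := cu_zero.2 hbc
        unfold CU at h1
        have h2 := gen_iff (Q := fun u : ℤ × ℕ => PF n ω u.1 (2 * (m : ℤ) - u.2)) upp h1
        have e : (2 * (m : ℤ) - ((2 * (m : ℤ) - 0).toNat : ℤ)) = 0 := by omega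
        simp only at h2
        rw [e] at h2
        exact h2.1 ih
      · have h1 := cl_zero.2 hbc
        unfold CL at h1
        have h2 := gen_iff (Q := fun u : ℤ × ℕ => PF n ω u.1 ((u.2 : ℤ) - 2 * m)) low h1
        have e : ((((0 : ℤ) + 2 * m).toNat : ℤ) - 2 * (m : ℤ)) = 0 := by omega
        simp only at h2
        rw [e] at h2
        exact h2.1 ih
  refine h ((Set.finite_Icc (-(n : ℤ)) n).subset fun k hk => ?_)
  have := bd _ _ (hsub k hk)
  exact ⟨by omega, by omega⟩

end CY
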