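import Pool.Agent.Lib.MP_216314_pr.K.KFin
import Pool.Agent.Lib.MP_216314_pr.Z.ZLim
import Pool.Agent.Lib.MP_216314_pr.AS.ASMain

/-!
# The one arm exponent `5/48` of critical bond percolation on `ℤ²`

The limit of the probability that no loop surrounds the marked gap is `EE 0 / EE 1`, that is a quotient of two determinants.
-/

set_option autoImplicit false

noncomputable section

namespace CY

open Finset FKI FKP Filter Topology

/-- a primitive cube root of unity -/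
theorem exists_q : ∃ q : ℂ, q ^ 2 + q + 1 = 0 ∧ (q ^ 2) ^ 2 + q ^ 2 + 1 = 0 := by
  obtain ⟨q, hq⟩ : ∃ q : ℂ, q ^ 2 + q + 1 = 0 := by
    refine ⟨⟨-1 / 2, Real.sqrt 3 / 2⟩, ?_⟩
    have h3 : Real.sqrt 3 * Real.sqrt 3 = 3 := Real.mul_self_sqrt (by norm_num)
    apply Complex.ext
    · simp only [pow_two, Complex.add_re, Complex.mul_re, Complex.one_re, Complex.zero_re]
      nlinarith [h3]
    · simp only [pow_two, Complex.add_im, Complex.mul_im, Complex.one_im, Complex.zero_im]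
      ring
  exact ⟨q, hq, by linear_combination (q ^ 2 - q + 1) * hq⟩

/-- the determinants of the two streams -/
theorem ib_eq (w : ℂ) (L : ℕ) : IB w L = 1 + w • PAS.BM L := by
  ext i j
  unfold IB PAS.BM
  rw [Matrix.of_apply, Matrix.add_apply, Matrix.smul_apply, Matrix.of_apply, Matrix.one_apply, smul_eq_mul]

theorem exp_root {a : ℝ} {x : ℂ} (h : x = 2 * Complex.cos a) :
    x * Complex.exp (Complex.I * a) = Complex.exp (Complex.I * a) ^ 2 + 1 := by
  have h1 : Complex.exp (Complex.I * a) * Complex.exp (-(Complex.I * a)) = 1 := by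
    rw [← Complex.exp_add, add_neg_cancel, Complex.exp_zero]
  have h2 : 2 * Complex.cos a = Complex.exp (Complex.I * a) + Complex.exp (-(Complex.I * a)) := by
    rw [Complex.cos]
    have e1 : (a : ℂ) * Complex.I = Complex.I * a := mul_comm _ _
    have e2 : -(a : ℂ) * Complex.I = -(Complex.I * a) := by ring
    rw [e1, e2]
    ring
  rw [h, h2]
  linear_combination h1

theorem norm_exp_I (a : ℝ) : ‖Complex.exp (Complex.I * a)‖ = 1 := by
  rw [mul_comm]
  exact Complex.norm_exp_ofReal_mul_I a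

/-- the quotient of the homogeneous values is the quotient of the determinants -/
theorem quot_norm {q : ℂ} (hq : q ^ 2 + q + 1 = 0) (n : ℕ) {Pb P : Pat (2 * n + 2) → MvPolynomial ℕ ℂ}
    (hPb : IsPsi (q ^ 2) (2 * n + 2) Pb) (hP : IsPsi q (2 * n + 2) P) {a : ℝ} {x : ℂ} (h : x = 2 * Complex.cos a) :
    ‖EE x Pb P (fun _ => 1) / EE 1 Pb P (fun _ => 1)‖ =
      ‖(1 + Complex.exp (Complex.I * a) • PAS.BM (2 * n + 2)).det‖ /
        ‖(1 + Complex.exp (Complex.I * ((Real.pi / 3 : ℝ) : ℂ)) • PAS.BM (2 * n + 2)).det‖ := by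
  have key : ∀ {a : ℝ} {x : ℂ}, x = 2 * Complex.cos a → ‖EE x Pb P (fun _ => 1)‖ =
      3 ^ ((n + 1) * (2 * n + 1)) * ‖(1 + Complex.exp (Complex.I * a) • PAS.BM (2 * n + 2)).det‖ := by
    intro a x h
    have h1 := EE_hom hq (exp_root h) n hPb hP
    have h2 := congrArg norm h1
    rw [norm_mul, norm_mul, norm_pow, norm_pow, norm_exp_I, one_pow, one_mul, ib_eq] at h2
    have e3 : ‖(3 : ℂ)‖ = 3 := by norm_num
    rw [e3] at h2
    exact h2
  have h1 : (1 : ℂ) = 2 * Complex.cos ((Real.pi / 3 : ℝ) : ℂ) := by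
    rw [← Complex.ofReal_cos, Real.cos_pi_div_three]
    push_cast
    norm_num
  rw [norm_div, key h, key h1, mul_div_mul_left _ _ (by positivity)]

/-- **the one arm exponent** -/
theorem one_arm : ∃ c C : ℝ, 0 < c ∧ 0 < C ∧ ∀ n : ℕ, 1 ≤ n →
    c * (n : ℝ) ^ (-(5 / 48) : ℝ) ≤ pi1 n ∧ pi1 n ≤ C * (n : ℝ) ^ (-(5 / 48) : ℝ) := by
  obtain ⟨c1, C1, hc1, hC1, h1⟩ := passage
  obtain ⟨c2, C2, hc2, hC2, h2⟩ := PAS.as_ratio (a := Real.pi / 2) (by positivity) (by
    have := Real.pi_pos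
    linarith)
  obtain ⟨q, hq, hq2⟩ := exists_q
  -- exponent
  have hexp : -(3 / 4 : ℝ) * ((Real.pi / 2) ^ 2 / Real.pi ^ 2 - 1 / 9) = -(5 / 48) := by
    have hpi : Real.pi ≠ 0 := Real.pi_ne_zero
    field_simp
    norm_num
  have hx : (0 : ℂ) = 2 * Complex.cos ((Real.pi / 2 : ℝ) : ℂ) := by
    rw [← Complex.ofReal_cos, Real.cos_pi_div_two]
    simp
  -- comparison for every width
  have main : ∀ n : ℕ, 1 ≤ n → ∃ p : ℝ, c1 * pi1 n ≤ p ∧ p ≤ C1 * pi1 n ∧
      c2 * ((2 * n : ℕ) : ℝ) ^ (-(5 / 48) : ℝ) ≤ p ∧ p ≤ C2 * ((2 * n : ℕ) : ℝ) ^ (-(5 / 48) : ℝ) := by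
    intro n hn
    obtain ⟨k, hk⟩ : ∃ k, n = k + 1 := ⟨n - 1, by omega⟩
    subst hk
    obtain ⟨P, hP⟩ := exists_psi hq (L := 2 * (k + 1)) (by omega) (even_two_mul _)
    obtain ⟨Pb, hPb⟩ := exists_psi hq2 (L := 2 * (k + 1)) (by omega) (even_two_mul _)
    obtain ⟨α, _⟩ := exists_ref (L := 2 * (k + 1)) (even_two_mul _) (by omega)
    have t1 : Tendsto (fun m => BB 0 (uu m α) (uu m α)) atTop
        (𝓝 (EE 0 Pb P (fun _ => 1) / EE 1 Pb P (fun _ => 1))) :=
      tendsto_law hq 0 (by omega) (even_two_mul _) hPb hP α α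
    refine ⟨‖EE 0 Pb P (fun _ => 1) / EE 1 Pb P (fun _ => 1)‖, ?_, ?_, ?_, ?_⟩
    · refine ge_of_tendsto t1.norm ?_
      filter_upwards [eventually_ge_atTop (k + 1)] with m hm
      refine (h1 (k + 1) hn m hm α).1.trans ?_
      exact Complex.re_le_norm _
    · refine le_of_tendsto t1.norm ?_
      filter_upwards [eventually_ge_atTop (k + 1)] with m hm
      refine le_trans (le_of_eq ?_) (h1 (k + 1) hn m hm α).2
      rw [← pr_NL hn, Complex.norm_real, Real.norm_of_nonneg (Pr_nonneg _ _), Complex.ofReal_re]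
    · have e := quot_norm hq k hPb hP hx
      have h3 := (h2 (2 * (k + 1)) (by omega)).1
      rw [hexp] at h3
      rw [e]
      exact h3
    · have e := quot_norm hq k hPb hP hx
      have h3 := (h2 (2 * (k + 1)) (by omega)).2
      rw [hexp] at h3
      rw [e]
      exact h3
  have h2p : (0 : ℝ) < (2 : ℝ) ^ (-(5 / 48) : ℝ) := Real.rpow_pos_of_pos (by norm_num) _
  refine ⟨c2 * (2 : ℝ) ^ (-(5 / 48) : ℝ) / C1, C2 * (2 : ℝ) ^ (-(5 / 48) : ℝ) / c1, by positivity, by positivity,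
    fun n hn => ?_⟩
  obtain ⟨p, p1, p2, p3, p4⟩ := main n hn
  have e : (((2 * n : ℕ) : ℝ)) ^ (-(5 / 48) : ℝ) = (2 : ℝ) ^ (-(5 / 48) : ℝ) * (n : ℝ) ^ (-(5 / 48) : ℝ) := by
    push_cast
    exact Real.mul_rpow (by norm_num) (by positivity)
  rw [e] at p3 p4
  constructor
  · rw [div_mul_eq_mul_div, div_le_iff₀ hC1]
    nlinarith [p3.trans p2]
  · rw [div_mul_eq_mul_div, le_div_iff₀ hc1]
    nlinarith [p1.trans p4]

end CY
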