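import Pool.Agent.Lib.MP_216314_pr.K.KLow
import Pool.Agent.Lib.MP_216314_pr.Cy.CyC

/-!
# The configuration of the cylinder and the two patterns

Face `(k, y)` of the straight cylinder: for `k + y` even it is the vertex `((k+y)/2, (y-k)/2)` of `ℤ²` (so `k = x - y'`, height
`y = x + y'`). Tile `(k, y)` has the faces `(k,y)`, `(k+1,y)`, `(k,y+1)`, `(k+1,y+1)`; `te k y` is the edge of `ℤ²` which crosses it.
`DG n ω k y`: the diagonal `(k,y)-(k+1,y+1)` is connected (otherwise the other diagonal is).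
`tlo`, `tup`: the letters of the lower half, from the bottom, and of the upper half, from the top.
-/

set_option autoImplicit false

noncomputable section

namespace CY

open Finset FKI FKP

/-- the edge which crosses the tile `(k, y)` -/
def te (k y : ℤ) : Edge :=
  if (k + y) % 2 = 0 then ((k + y) / 2, (y - k) / 2, false) else ((k + y + 1) / 2, (y - k - 1) / 2, true)

/-- the diagonal `(k, y)-(k+1, y+1)` is connected -/
def DG (n : ℕ) (ω : Finset Edge) (k y : ℤ) : Prop := (k + y) % 2 = 0 ↔ red n (te k y) ∈ ω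

/-- letters of the lower half -/
def tlo (n m : ℕ) (ω : Finset Edge) (h k : ℕ) : Prop := ¬ DG n ω k ((h : ℤ) - 2 * m)

/-- letters of the upper half -/
def tup (n m : ℕ) (ω : Finset Edge) (h k : ℕ) : Prop := DG n ω k (2 * (m : ℤ) - 1 - h)

theorem te_even {k y : ℤ} (h : (k + y) % 2 = 0) : te k y = ((k + y) / 2, (y - k) / 2, false) := if_pos h

theorem te_odd {k y : ℤ} (h : (k + y) % 2 ≠ 0) : te k y = ((k + y + 1) / 2, (y - k - 1) / 2, true) := if_neg h

theorem te_shift (n : ℕ) (k y j : ℤ) : te (j * (2 * n : ℕ) + k) y =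
    ((te k y).1 + j * n, (te k y).2.1 - j * n, (te k y).2.2) := by
  have e : j * ((2 * n : ℕ) : ℤ) = 2 * (j * n) := by push_cast; ring
  rw [e]
  generalize j * (n : ℤ) = a
  by_cases h : (k + y) % 2 = 0
  · rw [te_even h, te_even (by omega)]
    simp only [Prod.mk.injEq, and_true]
    constructor <;> omega
  · rw [te_odd h, te_odd (by omega)]
    simp only [Prod.mk.injEq, and_true]
    constructor <;> omega

theorem dg_shift {n : ℕ} (hn : 1 ≤ n) (ω : Finset Edge) (k y j : ℤ) :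
    DG n ω (j * (2 * n : ℕ) + k) y ↔ DG n ω k y := by
  unfold DG
  rw [te_shift, red_shift hn]
  have e : j * ((2 * n : ℕ) : ℤ) = 2 * (j * n) := by push_cast; ring
  rw [e]
  have : (2 * (j * n) + k + y) % 2 = 0 ↔ (k + y) % 2 = 0 := by
    generalize j * (n : ℤ) = a
    omega
  rw [this]

/-- the edge `(x, y', false)` crosses the tile `(x - y', x + y')` -/
theorem te_false (x y : ℤ) : te (x - y) (x + y) = (x, y, false) := by
  rw [te_even (by omega)]
  simp only [Prod.mk.injEq, and_true]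
  constructor <;> omega

theorem te_true (x y : ℤ) : te (x - y - 1) (x + y) = (x, y, true) := by
  rw [te_odd (by omega)]
  simp only [Prod.mk.injEq, and_true]
  constructor <;> omega

/-- the two patterns -/
def plo (n m : ℕ) (α : Pat (2 * n)) (ω : Finset Edge) : Pat (2 * n) := pats (tlo n m ω) α (2 * m)

def pup (n m : ℕ) (α : Pat (2 * n)) (ω : Finset Edge) : Pat (2 * n) := pats (tup n m ω) α (2 * m)

/-- connection of the faces in the lower half -/
def CL (n m : ℕ) (α : Pat (2 * n)) (ω : Finset Edge) (k y k' y' : ℤ) : Prop :=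
  Relation.EqvGen (FE (Reg α) (2 * n) (tlo n m ω) (2 * m)) (k, (y + 2 * m).toNat) (k', (y' + 2 * m).toNat)

/-- connection of the faces in the upper half -/
def CU (n m : ℕ) (α : Pat (2 * n)) (ω : Finset Edge) (k y k' y' : ℤ) : Prop :=
  Relation.EqvGen (FE (Reg α) (2 * n) (tup n m ω) (2 * m)) (k, (2 * m - y).toNat) (k', (2 * m - y').toNat)

theorem cl_zero {n m : ℕ} {α : Pat (2 * n)} {ω : Finset Edge} {k k' : ℤ} :
    CL n m α ω k 0 k' 0 ↔ Reg (plo n m α ω) k k' := by
  unfold CL plo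
  rw [reg_pats]
  have e : ((0 : ℤ) + 2 * m).toNat = 2 * m := by omega
  rw [e]

theorem cu_zero {n m : ℕ} {α : Pat (2 * n)} {ω : Finset Edge} {k k' : ℤ} :
    CU n m α ω k 0 k' 0 ↔ Reg (pup n m α ω) k k' := by
  unfold CU pup
  rw [reg_pats]
  have e : (2 * (m : ℤ) - 0).toNat = 2 * m := by omega
  rw [e]

/-- a connected diagonal of the lower half -/
theorem cl_diag {n m : ℕ} (hn : 1 ≤ n) {α : Pat (2 * n)} {ω : Finset Edge} {k y : ℤ} (h1 : -(2 * (m : ℤ)) ≤ y)
    (h2 : y < 0) : (DG n ω k y → CL n m α ω k y (k + 1) (y + 1)) ∧ (¬ DG n ω k y → CL n m α ω k (y + 1) (k + 1) y) := by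
  obtain ⟨j, r, hk, h3, h4⟩ := exists_jr (L := 2 * n) (by omega) k
  obtain ⟨r', hr'⟩ := Int.eq_ofNat_of_zero_le h3
  obtain ⟨h, hh⟩ := Int.eq_ofNat_of_zero_le (show 0 ≤ y + 2 * m by omega)
  have ey : y = (h : ℤ) - 2 * m := by omega
  have hlt : tlo n m ω h r' ↔ ¬ DG n ω k y := by
    unfold tlo
    rw [hk, hr', dg_shift hn, ey]
  have e1 : (y + 2 * m).toNat = h := by omega
  have e2 : (y + 1 + 2 * m).toNat = h + 1 := by omega
  unfold CL
  rw [e1, e2]
  constructor
  · intro hd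
    refine Relation.EqvGen.rel _ _ (Or.inr ⟨h, r', by omega, by omega, j, Or.inl ⟨fun c => (hlt.1 c) hd, ?_, ?_⟩⟩)
    · rw [hk, hr']
    · rw [hk, hr']
  · intro hd
    refine Relation.EqvGen.rel _ _ (Or.inr ⟨h, r', by omega, by omega, j, Or.inr ⟨hlt.2 hd, ?_, ?_⟩⟩)
    · rw [hk, hr']
    · rw [hk, hr']

/-- a connected diagonal of the upper half -/
theorem cu_diag {n m : ℕ} (hn : 1 ≤ n) {α : Pat (2 * n)} {ω : Finset Edge} {k y : ℤ} (h1 : 0 ≤ y)
    (h2 : y < 2 * (m : ℤ)) : (DG n ω k y → CU n m α ω k y (k + 1) (y + 1)) ∧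
      (¬ DG n ω k y → CU n m α ω k (y + 1) (k + 1) y) := by
  obtain ⟨j, r, hk, h3, h4⟩ := exists_jr (L := 2 * n) (by omega) k
  obtain ⟨r', hr'⟩ := Int.eq_ofNat_of_zero_le h3
  obtain ⟨h, hh⟩ := Int.eq_ofNat_of_zero_le (show 0 ≤ 2 * (m : ℤ) - 1 - y by omega)
  have ey : y = 2 * (m : ℤ) - 1 - h := by omega
  have hlt : tup n m ω h r' ↔ DG n ω k y := by
    unfold tup
    rw [hk, hr', dg_shift hn, ey]
  have e1 : (2 * (m : ℤ) - y).toNat = h + 1 := by omega
  have e2 : (2 * (m : ℤ) - (y + 1)).toNat = h := by omega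
  unfold CU
  rw [e1, e2]
  constructor
  · intro hd
    refine Relation.EqvGen.rel _ _ (Or.inr ⟨h, r', by omega, by omega, j, Or.inr ⟨hlt.2 hd, ?_, ?_⟩⟩)
    · rw [hk, hr']
    · rw [hk, hr']
  · intro hd
    refine Relation.EqvGen.rel _ _ (Or.inr ⟨h, r', by omega, by omega, j, Or.inl ⟨fun c => hd (hlt.1 c), ?_, ?_⟩⟩)
    · rw [hk, hr']
    · rw [hk, hr']

/-- the class of the marked gap -/
def KCl (n m : ℕ) (α : Pat (2 * n)) (ω : Finset Edge) : Set ℤ := gcls (pup n m α ω) (plo n m α ω) 0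

/-- the face `(k, y)` is connected to the class of the marked gap -/
def InK (n m : ℕ) (α : Pat (2 * n)) (ω : Finset Edge) (k y : ℤ) : Prop :=
  ∃ g ∈ KCl n m α ω, (y ≤ 0 ∧ -(2 * (m : ℤ)) ≤ y ∧ CL n m α ω g 0 k y) ∨ (0 ≤ y ∧ y ≤ 2 * m ∧ CU n m α ω g 0 k y)

theorem ink_zero {n m : ℕ} {α : Pat (2 * n)} {ω : Finset Edge} {k : ℤ} : InK n m α ω k 0 ↔ k ∈ KCl n m α ω := by
  constructor
  · rintro ⟨g, hg, ⟨_, _, h⟩ | ⟨_, _, h⟩⟩
    · exact Relation.ReflTransGen.tail hg (Or.inr (cl_zero.1 h))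
    · exact Relation.ReflTransGen.tail hg (Or.inl (cu_zero.1 h))
  · intro h
    exact ⟨k, h, Or.inl ⟨le_rfl, by omega, Relation.EqvGen.refl _⟩⟩

theorem ink_low {n m : ℕ} {α : Pat (2 * n)} {ω : Finset Edge} {k y k' y' : ℤ} (h : InK n m α ω k y)
    (h1 : y ≤ 0) (h2 : y' ≤ 0) (h3 : -(2 * (m : ℤ)) ≤ y') (hc : CL n m α ω k y k' y') : InK n m α ω k' y' := by
  rcases eq_or_lt_of_le h1 with h4 | h4
  · rw [h4] at h hc
    exact ⟨k, ink_zero.1 h, Or.inl ⟨h2, h3, hc⟩⟩
  · obtain ⟨g, hg, ⟨_, _, h⟩ | ⟨h5, _, _⟩⟩ := h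
    · exact ⟨g, hg, Or.inl ⟨h2, h3, h.trans _ _ _ hc⟩⟩
    · omega

theorem ink_up {n m : ℕ} {α : Pat (2 * n)} {ω : Finset Edge} {k y k' y' : ℤ} (h : InK n m α ω k y)
    (h1 : 0 ≤ y) (h2 : 0 ≤ y') (h3 : y' ≤ 2 * m) (hc : CU n m α ω k y k' y') : InK n m α ω k' y' := by
  rcases eq_or_lt_of_le h1 with h4 | h4
  · rw [← h4] at h hc
    exact ⟨k, ink_zero.1 h, Or.inr ⟨h2, h3, hc⟩⟩
  · obtain ⟨g, hg, ⟨h5, _, _⟩ | ⟨_, _, h⟩⟩ := h
    · omega
    · exact ⟨g, hg, Or.inr ⟨h2, h3, h.trans _ _ _ hc⟩⟩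

/-- connection of faces along a diagonal -/
theorem ink_diag {n m : ℕ} (hn : 1 ≤ n) {α : Pat (2 * n)} {ω : Finset Edge} {k y : ℤ} (h1 : -(2 * (m : ℤ)) ≤ y)
    (h2 : y < 2 * m) : (DG n ω k y → (InK n m α ω k y ↔ InK n m α ω (k + 1) (y + 1))) ∧
      (¬ DG n ω k y → (InK n m α ω k (y + 1) ↔ InK n m α ω (k + 1) y)) := by
  rcases lt_or_ge y 0 with h3 | h3
  · obtain ⟨d1, d2⟩ := cl_diag (α := α) (ω := ω) (k := k) hn h1 h3
    constructor
    · intro hd
      exact ⟨fun h => ink_low h (by omega) (by omega) (by omega) (d1 hd),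
        fun h => ink_low h (by omega) (by omega) (by omega) ((d1 hd).symm _ _)⟩
    · intro hd
      exact ⟨fun h => ink_low h (by omega) (by omega) (by omega) (d2 hd),
        fun h => ink_low h (by omega) (by omega) (by omega) ((d2 hd).symm _ _)⟩
  · obtain ⟨d1, d2⟩ := cu_diag (α := α) (ω := ω) (k := k) hn h3 h2
    constructor
    · intro hd
      exact ⟨fun h => ink_up h (by omega) (by omega) (by omega) (d1 hd),
        fun h => ink_up h (by omega) (by omega) (by omega) ((d1 hd).symm _ _)⟩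
    · intro hd
      exact ⟨fun h => ink_up h (by omega) (by omega) (by omega) (d2 hd),
        fun h => ink_up h (by omega) (by omega) (by omega) ((d2 hd).symm _ _)⟩

/-- an edge of the lifted graph connects the faces of its end points -/
theorem ink_edge {n m : ℕ} (hn : 1 ≤ n) {α : Pat (2 * n)} {ω : Finset Edge} (hω : ω ⊆ cylE n m) {e : Edge}
    (he : red n e ∈ ω) : InK n m α ω ((ea e).1 - (ea e).2) ((ea e).1 + (ea e).2) ↔
      InK n m α ω ((eb e).1 - (eb e).2) ((eb e).1 + (eb e).2) := by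
  have hh := mem_cylE.1 (hω he)
  rw [red_height] at hh
  obtain ⟨x, y, b⟩ := e
  obtain ⟨d1, d2⟩ := ink_diag (α := α) (ω := ω) (k := x - y) hn hh.2.2.1 hh.2.2.2
  obtain ⟨_, d4⟩ := ink_diag (α := α) (ω := ω) (k := x - y - 1) hn hh.2.2.1 hh.2.2.2
  cases b
  · have hd : DG n ω (x - y) (x + y) := by
      unfold DG
      rw [te_false]
      exact ⟨fun _ => he, fun _ => by omega⟩
    have := d1 hd
    show InK n m α ω (x - y) (x + y) ↔ InK n m α ω (x + 1 - y) (x + 1 + y)
    have e1 : x + 1 - y = x - y + 1 := by ring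
    have e2 : x + 1 + y = x + y + 1 := by ring
    rw [e1, e2]
    exact this
  · have hd : ¬ DG n ω (x - y - 1) (x + y) := by
      unfold DG
      rw [te_true]
      intro hc
      have := hc.2 he
      omega
    have := d4 hd
    show InK n m α ω (x - y) (x + y) ↔ InK n m α ω (x - (y + 1)) (x + (y + 1))
    have e1 : x - (y + 1) = x - y - 1 := by ring
    have e2 : x + (y + 1) = x + y + 1 := by ring
    have e3 : x - y - 1 + 1 = x - y := by ring
    rw [e3] at this
    rw [e1, e2]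
    exact this.symm

/-- the faces of the lifted cluster of the origin are connected to the marked gap -/
theorem ink_reach {n m : ℕ} (hn : 1 ≤ n) {α : Pat (2 * n)} {ω : Finset Edge} (hω : ω ⊆ cylE n m) {v : ℤ × ℤ}
    (h : (lgr n ω).Reachable (0, 0) v) : InK n m α ω (v.1 - v.2) (v.1 + v.2) := by
  have h0 : InK n m α ω 0 0 := ink_zero.2 Relation.ReflTransGen.refl
  have key : ∀ u v : ℤ × ℤ, (lgr n ω).Reachable u v → InK n m α ω (u.1 - u.2) (u.1 + u.2) →
      InK n m α ω (v.1 - v.2) (v.1 + v.2) := by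
    rintro u v ⟨p⟩
    induction p with
    | nil => exact id
    | @cons a b c hab p ih =>
      intro ha
      refine ih ?_
      unfold lgr at hab
      rw [SimpleGraph.fromRel_adj] at hab
      obtain ⟨_, ⟨e, h1, h2, h3⟩ | ⟨e, h1, h2, h3⟩⟩ := hab
      · rw [← h3]
        rw [← h2] at ha
        exact (ink_edge hn hω h1).1 ha
      · rw [← h2]
        rw [← h3] at ha
        exact (ink_edge hn hω h1).2 ha
  exact key (0, 0) v h h0

/-- a winding cluster makes the class infinite -/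
theorem infinite_of_wind {n m : ℕ} (hn : 1 ≤ n) {α : Pat (2 * n)} {ω : Finset Edge} (hω : ω ⊆ cylE n m)
    (h : Wind n ω) : (KCl n m α ω).Infinite := by
  have hpos : ∀ j : ℕ, (lgr n ω).Reachable (0, 0) ((j : ℤ) * n, -((j : ℤ) * n)) := by
    intro j
    induction j with
    | zero => simp
    | succ j ih =>
      refine ih.trans ?_
      have h1 := lgr_shift hn ω j h
      have e1 : ((0 : ℤ) + (j : ℤ) * n, (0 : ℤ) - (j : ℤ) * n) = ((j : ℤ) * n, -((j : ℤ) * n)) := by
        rw [zero_add, zero_sub]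
      have e2 : ((n : ℤ) + (j : ℤ) * n, -(n : ℤ) - (j : ℤ) * n) = (((j + 1 : ℕ) : ℤ) * n, -(((j + 1 : ℕ) : ℤ) * n)) := by
        push_cast
        exact Prod.ext (by simp only; ring) (by simp only; ring)
      have h2 : (lgr n ω).Reachable ((0 : ℤ) + (j : ℤ) * n, (0 : ℤ) - (j : ℤ) * n)
        ((n : ℤ) + (j : ℤ) * n, -(n : ℤ) - (j : ℤ) * n) := h1
      rwa [e1, e2] at h2
  refine Set.infinite_of_injective_forall_mem (f := fun j : ℕ => 2 * ((j : ℤ) * n)) ?_ ?_
  · intro a b hab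
    have hn' : (n : ℤ) ≠ 0 := by omega
    have h1 : (a : ℤ) * n = b * n := by
      simp only at hab
      linarith
    have := mul_right_cancel₀ hn' h1
    exact_mod_cast this
  · intro j
    have h1 := ink_reach (α := α) hn hω (hpos j)
    have e1 : (j : ℤ) * n - -((j : ℤ) * n) = 2 * ((j : ℤ) * n) := by ring
    have e2 : (j : ℤ) * n + -((j : ℤ) * n) = 0 := by ring
    simp only at h1
    rw [e1, e2] at h1
    exact ink_zero.1 h1

end CY
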