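import Pool.Agent.Lib.MP_216314_pr.K.KSum
import Pool.Agent.Lib.MP_216314_pr.Z.Form
import Pool.Agent.Lib.MP_216314_pr.Z.NKb

/-!
# The expectation of a function of the two patterns, and the one arm probability

`expect_pats`: the patterns of the two halves are independent with law `TT^[2m]` applied to the start pattern.
`pr_NL`: the probability that no loop surrounds the marked gap is `BB 0`. `passage`: it is comparable with the one arm probability.
-/

set_option autoImplicit false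

noncomputable section

namespace CY

open Finset FKI FKP

/-- edges and parities of the lower half -/
def elo (n m : ℕ) (h k : ℕ) : Edge := red n (te k ((h : ℤ) - 2 * m))

def alo (m : ℕ) (h k : ℕ) : Prop := ((k : ℤ) + ((h : ℤ) - 2 * m)) % 2 = 0

/-- edges and parities of the upper half -/
def eup (n m : ℕ) (h k : ℕ) : Edge := red n (te k (2 * (m : ℤ) - 1 - h))

def aup (m : ℕ) (h k : ℕ) : Prop := ¬ ((k : ℤ) + (2 * (m : ℤ) - 1 - h)) % 2 = 0

theorem lt_lo (n m : ℕ) (ω : Finset Edge) (h k : ℕ) : LT (elo n m) (alo m) ω h k ↔ tlo n m ω h k := Iff.rfl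

theorem lt_up (n m : ℕ) (ω : Finset Edge) (h k : ℕ) : LT (eup n m) (aup m) ω h k ↔ tup n m ω h k := by
  unfold LT tup DG eup aup
  tauto

theorem te_height (k y : ℤ) : (te k y).1 + (te k y).2.1 = y := by
  by_cases h : (k + y) % 2 = 0
  · rw [te_even h]
    simp only
    omega
  · rw [te_odd h]
    simp only
    omega

theorem te_inj {n : ℕ} (hn : 1 ≤ n) {k y k' y' : ℤ} (h1 : 0 ≤ k) (h2 : k < 2 * n) (h3 : 0 ≤ k') (h4 : k' < 2 * n)
    (h : red n (te k y) = red n (te k' y')) : k = k' ∧ y = y' := by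
  obtain ⟨j, e1, e2, e3⟩ := red_eq h
  have hy : y = y' := by
    have a1 := te_height k y
    have a2 := te_height k' y'
    rw [e1, e2] at a2
    linarith
  refine ⟨?_, hy⟩
  rw [← hy] at e1 e2 e3
  have hj : ∃ i : ℤ, i = j * n := ⟨_, rfl⟩
  obtain ⟨i, hi⟩ := hj
  rw [← hi] at e1 e2
  have hk : k' - k = 2 * i := by
    by_cases c : (k + y) % 2 = 0
    · rw [te_even c] at e1 e2 e3
      by_cases c' : (k' + y) % 2 = 0
      · rw [te_even c'] at e1 e2 e3
        simp only at e1 e2
        omega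
      · rw [te_odd c'] at e3
        simp at e3
    · rw [te_odd c] at e1 e2 e3
      by_cases c' : (k' + y) % 2 = 0
      · rw [te_even c'] at e3
        simp at e3
      · rw [te_odd c'] at e1 e2 e3
        simp only at e1 e2
        omega
  have hj0 : j = 0 := by
    by_contra hc
    rcases lt_or_gt_of_ne hc with h5 | h5
    · have : j * (n : ℤ) ≤ -1 * n := mul_le_mul_of_nonneg_right (by omega) (by omega)
      omega
    · have : 1 * (n : ℤ) ≤ j * n := mul_le_mul_of_nonneg_right (by omega) (by omega)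
      omega
  rw [hj0, zero_mul] at hi
  omega

theorem elo_inj {n m : ℕ} (hn : 1 ≤ n) (h k h' k' : ℕ) (_ : h < 2 * m) (h2 : k < 2 * n) (_ : h' < 2 * m)
    (h4 : k' < 2 * n) (he : elo n m h k = elo n m h' k') : h = h' ∧ k = k' := by
  obtain ⟨h5, h6⟩ := te_inj hn (by omega) (by omega) (by omega) (by omega) he
  omega

theorem eup_inj {n m : ℕ} (hn : 1 ≤ n) (h k h' k' : ℕ) (_ : h < 2 * m) (h2 : k < 2 * n) (_ : h' < 2 * m)
    (h4 : k' < 2 * n) (he : eup n m h k = eup n m h' k') : h = h' ∧ k = k' := by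
  obtain ⟨h5, h6⟩ := te_inj hn (by omega) (by omega) (by omega) (by omega) he
  omega

/-- the tile which is crossed by an edge of the cylinder -/
theorem exists_te {n m : ℕ} (hn : 1 ≤ n) {e : Edge} (he : e ∈ cylE n m) : ∃ k : ℕ, k < 2 * n ∧
    red n (te k (e.1 + e.2.1)) = e := by
  have h := mem_cylE.1 he
  have hred : red n e = e := by
    unfold red
    rw [Int.ediv_eq_zero_of_lt h.1 h.2.1]
    simp
  obtain ⟨x, y, b⟩ := e
  simp only at h
  cases b
  · obtain ⟨k, hk⟩ := Int.eq_ofNat_of_zero_le h.1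
    refine ⟨k, by omega, ?_⟩
    rw [← hk]
    show red n (te (x - y) (x + y)) = _
    rw [te_false, hred]
  · rcases eq_or_lt_of_le h.1 with h1 | h1
    · refine ⟨2 * n - 1, by omega, ?_⟩
      have e1 : (((2 * n - 1 : ℕ) : ℕ) : ℤ) = 1 * ((2 * n : ℕ) : ℤ) + (x - y - 1) := by omega
      rw [e1]
      show red n (te (1 * ((2 * n : ℕ) : ℤ) + (x - y - 1)) (x + y)) = _
      rw [te_shift, red_shift hn, te_true, hred]
    · obtain ⟨k, hk⟩ := Int.eq_ofNat_of_zero_le (show 0 ≤ x - y - 1 by omega)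
      refine ⟨k, by omega, ?_⟩
      rw [← hk]
      show red n (te (x - y - 1) (x + y)) = _
      rw [te_true, hred]

theorem red_te_height (n : ℕ) (k y : ℤ) : (red n (te k y)).1 + (red n (te k y)).2.1 = y := by
  rw [red_height, te_height]

theorem mem_lo {n m : ℕ} (hn : 1 ≤ n) {e : Edge} : e ∈ RE (elo n m) (2 * n) (2 * m) ↔
    e ∈ cylE n m ∧ e.1 + e.2.1 < 0 := by
  rw [mem_RE]
  constructor
  · rintro ⟨h, k, h1, h2, h3⟩
    rw [← h3]
    unfold elo
    refine ⟨red_mem hn ?_ ?_, ?_⟩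
    · rw [te_height]
      omega
    · rw [te_height]
      omega
    · rw [red_te_height]
      omega
  · rintro ⟨he, h0⟩
    obtain ⟨k, hk, h1⟩ := exists_te hn he
    have h := mem_cylE.1 he
    obtain ⟨i, hi⟩ := Int.eq_ofNat_of_zero_le (show 0 ≤ e.1 + e.2.1 + 2 * m by omega)
    refine ⟨i, k, by omega, hk, ?_⟩
    unfold elo
    have e1 : ((i : ℤ) - 2 * m) = e.1 + e.2.1 := by omega
    rw [e1]
    exact h1

theorem mem_up {n m : ℕ} (hn : 1 ≤ n) {e : Edge} : e ∈ RE (eup n m) (2 * n) (2 * m) ↔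
    e ∈ cylE n m ∧ 0 ≤ e.1 + e.2.1 := by
  rw [mem_RE]
  constructor
  · rintro ⟨h, k, h1, h2, h3⟩
    rw [← h3]
    unfold eup
    refine ⟨red_mem hn ?_ ?_, ?_⟩
    · rw [te_height]
      omega
    · rw [te_height]
      omega
    · rw [red_te_height]
      omega
  · rintro ⟨he, h0⟩
    obtain ⟨k, hk, h1⟩ := exists_te hn he
    have h := mem_cylE.1 he
    obtain ⟨i, hi⟩ := Int.eq_ofNat_of_zero_le (show 0 ≤ 2 * (m : ℤ) - 1 - (e.1 + e.2.1) by omega)
    refine ⟨i, k, by omega, hk, ?_⟩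
    unfold eup
    have e1 : 2 * (m : ℤ) - 1 - (i : ℤ) = e.1 + e.2.1 := by omega
    rw [e1]
    exact h1

/-- the law of the pattern -/
abbrev uu {n : ℕ} (m : ℕ) (α : Pat (2 * n)) : V (2 * n) := (⇑(TT : V (2 * n) →ₗ[ℂ] V (2 * n)))^[2 * m] (Pi.single α 1)

open Classical in
/-- the expectation of a function of the two patterns -/
theorem expect_pats {n : ℕ} (hn : 1 ≤ n) (m : ℕ) (α : Pat (2 * n)) (F : Pat (2 * n) → Pat (2 * n) → ℂ) :
    ∑ ω ∈ (cylE n m).powerset, F (pup n m α ω) (plo n m α ω) =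
      2 ^ (cylE n m).card * ∑ b, ∑ a, uu m α b * uu m α a * F b a := by
  obtain ⟨U, hU⟩ : ∃ U, U = RE (eup n m) (2 * n) (2 * m) := ⟨_, rfl⟩
  obtain ⟨D, hD⟩ : ∃ D, D = RE (elo n m) (2 * n) (2 * m) := ⟨_, rfl⟩
  have memU : ∀ e, e ∈ U ↔ e ∈ cylE n m ∧ 0 ≤ e.1 + e.2.1 := by
    intro e
    rw [hU]
    exact mem_up hn
  have memD : ∀ e, e ∈ D ↔ e ∈ cylE n m ∧ e.1 + e.2.1 < 0 := by
    intro e
    rw [hD]
    exact mem_lo hn
  have hUD : cylE n m = U ∪ D := by
    ext e
    rw [mem_union, memU, memD]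
    constructor
    · intro h
      rcases le_or_gt 0 (e.1 + e.2.1) with h1 | h1
      · exact Or.inl ⟨h, h1⟩
      · exact Or.inr ⟨h, h1⟩
    · rintro (h | h)
      · exact h.1
      · exact h.1
  have hdis : Disjoint U D := by
    rw [disjoint_left]
    intro e h1 h2
    have := ((memU e).1 h1).2
    have := ((memD e).1 h2).2
    omega
  have hsplit : ∀ G : Finset Edge → ℂ, ∑ ω ∈ (cylE n m).powerset, G ω =
      ∑ ω ∈ U.powerset, ∑ ρ ∈ D.powerset, G (ω ∪ ρ) := by
    intro G
    rw [← sum_product' U.powerset D.powerset (fun ω ρ => G (ω ∪ ρ))]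
    refine sum_nbij' (fun ω => (ω ∩ U, ω ∩ D)) (fun p => p.1 ∪ p.2) ?_ ?_ ?_ ?_ ?_
    · intro ω _
      rw [mem_product, mem_powerset, mem_powerset]
      exact ⟨inter_subset_right, inter_subset_right⟩
    · rintro ⟨ω, ρ⟩ hp
      rw [mem_product, mem_powerset, mem_powerset] at hp
      rw [mem_powerset, hUD]
      exact union_subset_union hp.1 hp.2
    · intro ω hω
      rw [mem_powerset, hUD] at hω
      show ω ∩ U ∪ ω ∩ D = ω
      rw [← inter_union_distrib_left]
      exact inter_eq_left.2 hω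
    · rintro ⟨ω, ρ⟩ hp
      rw [mem_product, mem_powerset, mem_powerset] at hp
      refine Prod.ext ?_ ?_
      · show (ω ∪ ρ) ∩ U = ω
        rw [union_inter_distrib_right, inter_eq_left.2 hp.1, (disjoint_iff_inter_eq_empty.1
          (hdis.symm.mono_left hp.2)), union_empty]
      · show (ω ∪ ρ) ∩ D = ρ
        rw [union_inter_distrib_right, inter_eq_left.2 hp.2, (disjoint_iff_inter_eq_empty.1
          (hdis.mono_left hp.1)), empty_union]
    · intro ω hω
      rw [mem_powerset, hUD] at hω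
      congr 1
      show ω = ω ∩ U ∪ ω ∩ D
      rw [← inter_union_distrib_left]
      exact (inter_eq_left.2 hω).symm
  have hup : ∀ ω ∈ U.powerset, ∀ ρ ∈ D.powerset, pup n m α (ω ∪ ρ) = pats (LT (eup n m) (aup m) ω) α (2 * m) := by
    intro ω _ ρ hρ
    unfold pup
    refine pats_congr α (2 * m) fun i hi k hk => ?_
    rw [← lt_up]
    unfold LT
    have : eup n m i k ∈ ω ∪ ρ ↔ eup n m i k ∈ ω := by
      rw [mem_union]
      refine ⟨fun c => c.resolve_right (fun d => ?_), Or.inl⟩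
      have h1 := mem_powerset.1 hρ d
      have h2 : eup n m i k ∈ U := by
        rw [hU, mem_RE]
        exact ⟨i, k, hi, hk, rfl⟩
      exact disjoint_left.1 hdis h2 h1
    rw [this]
  have hlo : ∀ ω ∈ U.powerset, ∀ ρ ∈ D.powerset, plo n m α (ω ∪ ρ) = pats (LT (elo n m) (alo m) ρ) α (2 * m) := by
    intro ω hω ρ _
    unfold plo
    refine pats_congr α (2 * m) fun i hi k hk => ?_
    rw [← lt_lo]
    unfold LT
    have : elo n m i k ∈ ω ∪ ρ ↔ elo n m i k ∈ ρ := by
      rw [mem_union]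
      refine ⟨fun c => c.resolve_left (fun d => ?_), Or.inr⟩
      have h1 := mem_powerset.1 hω d
      have h2 : elo n m i k ∈ D := by
        rw [hD, mem_RE]
        exact ⟨i, k, hi, hk, rfl⟩
      exact disjoint_left.1 hdis h1 h2
    rw [this]
  rw [hsplit, sum_congr rfl (fun ω hω => sum_congr rfl (fun ρ hρ => by rw [hup ω hω ρ hρ, hlo ω hω ρ hρ]))]
  have lawU := law_rows (eup n m) (aup m) (M := 2 * m) (L := 2 * n) (eup_inj hn) α (2 * m) le_rfl
  have lawD := law_rows (elo n m) (alo m) (M := 2 * m) (L := 2 * n) (elo_inj hn) α (2 * m) le_rfl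
  rw [← hU] at lawU
  rw [← hD] at lawD
  have hF : ∀ b a : Pat (2 * n), F b a = ∑ b', ∑ a', (if b = b' then (1 : ℂ) else 0) * (if a = a' then (1 : ℂ) else 0) * F b' a' := by
    intro b a
    rw [sum_eq_single b, sum_eq_single a]
    · rw [if_pos rfl, if_pos rfl, one_mul, one_mul]
    · intro a' _ h
      rw [if_neg (show ¬ a = a' from fun c => h c.symm), mul_zero, zero_mul]
    · intro h
      exact absurd (mem_univ _) h
    · intro b' _ h
      refine sum_eq_zero fun a' _ => ?_
      rw [if_neg (fun c => h c.symm), zero_mul, zero_mul]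
    · intro h
      exact absurd (mem_univ _) h
  calc ∑ ω ∈ U.powerset, ∑ ρ ∈ D.powerset, F (pats (LT (eup n m) (aup m) ω) α (2 * m)) (pats (LT (elo n m) (alo m) ρ) α (2 * m))
      = ∑ ω ∈ U.powerset, ∑ ρ ∈ D.powerset, ∑ b, ∑ a, (if pats (LT (eup n m) (aup m) ω) α (2 * m) = b then (1 : ℂ) else 0) *
        (if pats (LT (elo n m) (alo m) ρ) α (2 * m) = a then (1 : ℂ) else 0) * F b a :=
        sum_congr rfl (fun ω _ => sum_congr rfl (fun ρ _ => hF _ _))
    _ = ∑ b, ∑ a, (∑ ω ∈ U.powerset, (if pats (LT (eup n m) (aup m) ω) α (2 * m) = b then (1 : ℂ) else 0)) *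
        (∑ ρ ∈ D.powerset, (if pats (LT (elo n m) (alo m) ρ) α (2 * m) = a then (1 : ℂ) else 0)) * F b a := by
        have s1 : ∀ ω ∈ U.powerset, (∑ ρ ∈ D.powerset, ∑ b, ∑ a, (if pats (LT (eup n m) (aup m) ω) α (2 * m) = b then (1 : ℂ) else 0) *
            (if pats (LT (elo n m) (alo m) ρ) α (2 * m) = a then (1 : ℂ) else 0) * F b a) =
            ∑ b, ∑ a, ∑ ρ ∈ D.powerset, (if pats (LT (eup n m) (aup m) ω) α (2 * m) = b then (1 : ℂ) else 0) *
            (if pats (LT (elo n m) (alo m) ρ) α (2 * m) = a then (1 : ℂ) else 0) * F b a := by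
          intro ω _
          rw [sum_comm]
          exact sum_congr rfl (fun b _ => sum_comm)
        rw [sum_congr rfl s1, sum_comm]
        refine sum_congr rfl fun b _ => ?_
        rw [sum_comm]
        refine sum_congr rfl fun a _ => ?_
        rw [sum_mul_sum, sum_mul]
        refine sum_congr rfl fun ω _ => ?_
        rw [sum_mul]
    _ = 2 ^ (cylE n m).card * ∑ b, ∑ a, uu m α b * uu m α a * F b a := by
        rw [hUD, card_union_of_disjoint hdis, pow_add, mul_sum]
        refine sum_congr rfl fun b _ => ?_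
        rw [mul_sum]
        refine sum_congr rfl fun a _ => ?_
        rw [lawU b, lawD a]
        ring

/-- the generating function of the number of loops around the marked gap -/
theorem expect_NL {n : ℕ} (hn : 1 ≤ n) (m : ℕ) (α : Pat (2 * n)) (x : ℂ) :
    (∑ ω ∈ (cylE n m).powerset, x ^ NL (pup n m α ω) (plo n m α ω)) / 2 ^ (cylE n m).card =
      BB x (uu m α) (uu m α) := by
  rw [expect_pats hn m α (fun b a => x ^ NL b a), mul_div_cancel_left₀ _ (pow_ne_zero _ two_ne_zero), BB_apply]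

/-- the probability that there is no loop around the marked gap -/
theorem pr_NL {n : ℕ} (hn : 1 ≤ n) (m : ℕ) (α : Pat (2 * n)) :
    ((Pr (cylE n m) (fun ω => NL (pup n m α ω) (plo n m α ω) = 0) : ℝ) : ℂ) = BB 0 (uu m α) (uu m α) := by
  classical
  rw [← expect_NL hn m α 0, pproba_eq]
  push_cast
  congr 1
  rw [card_filter]
  push_cast
  refine sum_congr rfl fun ω _ => ?_
  by_cases h : NL (pup n m α ω) (plo n m α ω) = 0
  · rw [if_pos h, h, pow_zero]
  · rw [if_neg h, zero_pow h]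

/-- **the passage**: the exact law on the cylinder against the one arm probability of the plane -/
theorem passage : ∃ c C : ℝ, 0 < c ∧ 0 < C ∧ ∀ n : ℕ, 1 ≤ n → ∀ m : ℕ, n ≤ m → ∀ α : Pat (2 * n),
    c * pi1 n ≤ (BB 0 (uu m α) (uu m α)).re ∧ (BB 0 (uu m α) (uu m α)).re ≤ C * pi1 n := by
  obtain ⟨c, C, hc, hC, h⟩ := cyl_passage
  refine ⟨c, C, hc, hC, fun n hn m hm α => ?_⟩
  have key := h n hn m hm (fun ω => NL (pup n m α ω) (plo n m α ω) = 0) ?_ ?_
  · have e := congrArg Complex.re (pr_NL hn m α)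
    rw [Complex.ofReal_re] at e
    rw [← e]
    exact key
  · intro ω hω hw
    exact (NAt_eq_zero_iff (pup n m α ω) (plo n m α ω) 0).2 (infinite_of_wind hn hω hw)
  · intro ω _ hA
    exact far_of_infinite hn hm ((NAt_eq_zero_iff (pup n m α ω) (plo n m α ω) 0).1 hA)

end CY
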