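import Pool.Agent.Lib.MP_216314_pr.K.KRowB

/-!
# Many rows: the regions of the pattern are the clusters of the faces

`pats t α₀ m`: the pattern after `m` rows. `FE`: generators of the connection of the faces `(g, h)`, `h ≤ m`: the regions of `α₀` at
height `0`, and one diagonal of every tile. `reg_pats`: the gaps `g`, `g'` are in the same region of the pattern iff the faces
`(g, m)`, `(g', m)` are connected.
-/

set_option autoImplicit false

noncomputable section

namespace CY

open Finset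

variable {L : ℕ}

/-- label of the new gap `g` in the frontier -/
def io (L : ℕ) (g : ℤ) : ℤ := g + 1 + 2 * (g / L)

theorem io_js {j r : ℤ} (h0 : 0 ≤ r) (h1 : r < L) : io L (j * L + r) = j * (L + 2) + r + 1 := by
  unfold io
  have e : (j * L + r) / (L : ℤ) = j := by
    rw [add_comm, Int.add_mul_ediv_right _ _ (by omega), Int.ediv_eq_zero_of_lt h0 h1, zero_add]
  rw [e]
  ring

theorem exists_jr (hL : 0 < L) (g : ℤ) : ∃ j r : ℤ, g = j * L + r ∧ 0 ≤ r ∧ r < L :=
  ⟨g / L, g % L, (Int.ediv_mul_add_emod g L).symm, Int.emod_nonneg _ (by omega),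
    Int.emod_lt_of_pos _ (by omega)⟩

theorem reg_rotInv (α : Pat L) (a b : ℤ) : Reg (Pat.rotInv α) a b ↔ Reg α (a - 1) (b - 1) := by
  have e : ∀ x, (Pat.rotInv α).f x = α.f (x - 1) + 1 := fun _ => rfl
  constructor
  · intro h x
    have := h (x + 1)
    rw [e, add_sub_cancel_right] at this
    constructor
    · intro h1
      have := this.1 (by omega)
      omega
    · intro h1
      have := this.2 (by omega)
      omega
  · intro h x
    have := h (x - 1)
    rw [e]
    constructor
    · intro h1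
      have := this.1 (by omega)
      omega
    · intro h1
      have := this.2 (by omega)
      omega

theorem reg_row (α : Pat L) (t : ℕ → Prop) (g g' : ℤ) :
    Reg (rowP t α) g g' ↔ Relation.EqvGen (BC α t) (Sum.inr (io L g)) (Sum.inr (io L g')) := by
  have hL := α.pos
  obtain ⟨j, r, hg, h1, h2⟩ := exists_jr hL g
  obtain ⟨j', r', hg', h1', h2'⟩ := exists_jr hL g'
  rw [hg, hg', io_js h1 h2, io_js h1' h2']
  have ab : ∀ j r : ℤ, 0 ≤ r → r < L → Ab L 0 (j * L + r) (j * (L + 2) + (r + 2)) := by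
    intro j r h1 h2
    have := ab_zero hL j (r + 2) (by omega) (by omega)
    have e : j * (L : ℤ) + (r + 2) - 2 = j * L + r := by ring
    rwa [e] at this
  have nc : ∀ j r : ℤ, 0 ≤ r → r < L → NCut (L + 2) 0 (j * (L + 2) + (r + 2)) := by
    intro j r h1 h2
    exact (ncut_js (by omega) (by omega) le_rfl (by omega)).2 (by omega)
  have hcap : Pat.ins 0 (rowP t α) = Pat.e 0 (Pat.rotInv (rowSt t α L)) := Pat.ins_cap α.pos 0 _
  rw [← reg_ins (ab j r h1 h2) (ab j' r' h1' h2') (nc j r h1 h2) (nc j' r' h1' h2'), hcap,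
    reg_e_iff (nc j r h1 h2) (nc j' r' h1' h2')]
  have f1 : ∀ j s : ℤ, 1 ≤ s → s < L + 2 → fr L L (j * (L + 2) + s) = Sum.inr (j * (L + 2) + s) := by
    intro j s h1 h2
    rw [fr_mod j s h1 h2, if_pos (by omega)]
  have hQ : ∀ a b : ℤ, Reg (Pat.rotInv (rowSt t α L)) a b ↔
      Relation.EqvGen (BE α t L) (fr L L (a - 1)) (fr L L (b - 1)) := by
    intro a b
    rw [reg_rotInv, reg_rowSt α t L le_rfl]
  have key := gen_merge (φ := fun a : ℤ => fr L L (a - 1)) (M := fun a b => b = a + 2 ∧ ((L + 2 : ℕ) : ℤ) ∣ a - 0)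
    (s := fun u v => ∃ j : ℤ, u = Sum.inr (j * (L + 2) - 1) ∧ v = Sum.inr (j * (L + 2) + 1)) hQ ?_ ?_
    (j * (L + 2) + (r + 2)) (j' * (L + 2) + (r' + 2))
  · have hM : Mr (Pat.rotInv (rowSt t α L)) 0 = fun a b => Reg (Pat.rotInv (rowSt t α L)) a b ∨
          (b = a + 2 ∧ ((L + 2 : ℕ) : ℤ) ∣ a - 0) := rfl
    rw [hM, key]
    have e1 : ∀ j r : ℤ, j * ((L : ℤ) + 2) + (r + 2) - 1 = j * (L + 2) + (r + 1) := by
      intro j r
      ring
    have e2 : ∀ j r : ℤ, j * ((L : ℤ) + 2) + r + 1 = j * (L + 2) + (r + 1) := by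
      intro j r
      ring
    rw [e1, e1, f1 j (r + 1) (by omega) (by omega), f1 j' (r' + 1) (by omega) (by omega), e2, e2]
    exact Iff.rfl
  · rintro a b ⟨h3, m, h4⟩
    have e1 : a = m * (L + 2) := by
      push_cast at h4
      linarith
    refine ⟨m, ?_, ?_⟩
    · have e2 : a - 1 = (m - 1) * (L + 2) + (L + 1) := by rw [e1]; ring
      have e3 : m * ((L : ℤ) + 2) - 1 = (m - 1) * (L + 2) + (L + 1) := by ring
      show fr L L (a - 1) = _
      rw [e2, e3, f1 _ _ (by omega) (by omega)]
    · have e2 : b - 1 = m * (L + 2) + 1 := by rw [h3, e1]; ring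
      show fr L L (b - 1) = _
      rw [e2, f1 _ _ (by omega) (by omega)]
  · rintro u v ⟨m, h3, h4⟩
    refine ⟨m * (L + 2), m * (L + 2) + 2, ⟨rfl, m, by push_cast; ring⟩, ?_, ?_⟩
    · rw [h3]
      have e3 : m * ((L : ℤ) + 2) - 1 = (m - 1) * (L + 2) + (L + 1) := by ring
      show _ = fr L L (m * (L + 2) - 1)
      rw [e3, f1 _ _ (by omega) (by omega)]
    · rw [h4]
      have e3 : m * ((L : ℤ) + 2) + 2 - 1 = m * (L + 2) + 1 := by ring
      show _ = fr L L (m * (L + 2) + 2 - 1)
      rw [e3, f1 _ _ (by omega) (by omega)]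

/-- generators of the connection of the faces -/
def FE (R0 : ℤ → ℤ → Prop) (L : ℕ) (t : ℕ → ℕ → Prop) (m : ℕ) (u v : ℤ × ℕ) : Prop :=
  (u.2 = 0 ∧ v.2 = 0 ∧ R0 u.1 v.1) ∨ ∃ h k : ℕ, h < m ∧ k < L ∧ ∃ j : ℤ,
    (¬ t h k ∧ u = (j * L + k, h) ∧ v = (j * L + k + 1, h + 1)) ∨
    (t h k ∧ u = (j * L + k, h + 1) ∧ v = (j * L + k + 1, h))

/-- the pattern after `m` rows -/
def pats (t : ℕ → ℕ → Prop) (α : Pat L) : ℕ → Pat L
  | 0 => α
  | m + 1 => rowP (t m) (pats t α m)

theorem fe_height {R0 : ℤ → ℤ → Prop} {t : ℕ → ℕ → Prop} {m : ℕ} {u v : ℤ × ℕ} (h : FE R0 L t m u v) :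
    u.2 ≤ m ∧ v.2 ≤ m := by
  rcases h with ⟨h1, h2, _⟩ | ⟨h, k, h1, _, j, ⟨_, h3, h4⟩ | ⟨_, h3, h4⟩⟩
  · omega
  · rw [h3, h4]
    exact ⟨by show h ≤ m; omega, by show h + 1 ≤ m; omega⟩
  · rw [h3, h4]
    exact ⟨by show h + 1 ≤ m; omega, by show h ≤ m; omega⟩

/-- the faces above the height `m` are alone -/
theorem fe_high {R0 : ℤ → ℤ → Prop} {t : ℕ → ℕ → Prop} {m : ℕ} {u v : ℤ × ℕ}
    (h : Relation.EqvGen (FE R0 L t m) u v) (hu : m < u.2 ∨ m < v.2) : u = v := by
  rcases hu with hu | hu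
  · refine ((gen_iso (x := u) (fun a b hab => ?_) h).1 rfl).symm
    have := fe_height hab
    refine ⟨fun e => ?_, fun e => ?_⟩
    · rw [e] at this
      omega
    · rw [e] at this
      omega
  · refine (gen_iso (x := v) (fun a b hab => ?_) h).2 rfl
    have := fe_height hab
    refine ⟨fun e => ?_, fun e => ?_⟩
    · rw [e] at this
      omega
    · rw [e] at this
      omega

theorem fe_mono {R0 : ℤ → ℤ → Prop} {t : ℕ → ℕ → Prop} {m : ℕ} {u v : ℤ × ℕ}
    (h : Relation.EqvGen (FE R0 L t m) u v) : Relation.EqvGen (FE R0 L t (m + 1)) u v := by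
  refine gen_mono (fun a b hab => ?_) h
  rcases hab with hab | ⟨h, k, h1, hab⟩
  · exact Or.inl hab
  · exact Or.inr ⟨h, k, by omega, hab⟩

theorem fe_zero {α : Pat L} {t : ℕ → ℕ → Prop} {u v : ℤ × ℕ} (h : Relation.EqvGen (FE (Reg α) L t 0) u v) :
    u = v ∨ (u.2 = 0 ∧ v.2 = 0 ∧ Reg α u.1 v.1) := by
  induction h with
  | rel u v h =>
    rcases h with h | ⟨h, k, h1, _⟩
    · exact Or.inr h
    · omega
  | refl u => exact Or.inl rfl
  | symm u v _ ih =>
    rcases ih with h | ⟨h1, h2, h3⟩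
    · exact Or.inl h.symm
    · exact Or.inr ⟨h2, h1, reg_symm α h3⟩
  | trans u v w _ _ ih1 ih2 =>
    rcases ih1 with h | ⟨h1, h2, h3⟩
    · rw [h]
      exact ih2
    · rcases ih2 with h | ⟨g1, g2, g3⟩
      · rw [← h]
        exact Or.inr ⟨h1, h2, h3⟩
      · exact Or.inr ⟨h1, g2, reg_trans h3 g3⟩

/-- the regions of the pattern after `m` rows are the clusters of the faces -/
theorem reg_pats (α : Pat L) (t : ℕ → ℕ → Prop) (m : ℕ) : ∀ g g' : ℤ,
    (Reg (pats t α m) g g' ↔ Relation.EqvGen (FE (Reg α) L t m) (g, m) (g', m)) := by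
  have hL := α.pos
  induction m with
  | zero =>
    intro g g'
    constructor
    · intro h
      exact Relation.EqvGen.rel _ _ (Or.inl ⟨rfl, rfl, h⟩)
    · intro h
      rcases fe_zero h with h | ⟨_, _, h⟩
      · rw [(Prod.mk.inj h).1]
        exact reg_refl _ _
      · exact h
  | succ m ih =>
    intro g g'
    show Reg (rowP (t m) (pats t α m)) g g' ↔ _
    rw [reg_row]
    -- the gap below the label
    have c_js : ∀ j s : ℤ, 0 ≤ s → s < L + 2 → (j * (L + 2) + s) - 1 - 2 * ((j * (L + 2) + s) / (L + 2)) = j * L + s - 1 := by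
      intro j s h1 h2
      have e : (j * ((L : ℤ) + 2) + s) / (L + 2) = j := by
        rw [add_comm, Int.add_mul_ediv_right _ _ (by omega), Int.ediv_eq_zero_of_lt h1 h2, zero_add]
      rw [e]
      ring
    let π : ℤ ⊕ ℤ → ℤ × ℕ := Sum.elim (fun g => (g, m)) (fun G => (G - 1 - 2 * (G / (L + 2)), m + 1))
    have πl : ∀ g, π (Sum.inl g) = (g, m) := fun _ => rfl
    have πr : ∀ j s : ℤ, 0 ≤ s → s < L + 2 → π (Sum.inr (j * (L + 2) + s)) = (j * L + s - 1, m + 1) := by
      intro j s h1 h2
      show ((j * (L + 2) + s) - 1 - 2 * ((j * (L + 2) + s) / (L + 2)), m + 1) = _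
      rw [c_js j s h1 h2]
    have πio : ∀ g, π (Sum.inr (io L g)) = (g, m + 1) := by
      intro g
      obtain ⟨j, r, hg, h1, h2⟩ := exists_jr hL g
      have e : j * ((L : ℤ) + 2) + r + 1 = j * (L + 2) + (r + 1) := by ring
      rw [hg, io_js h1 h2, e, πr j (r + 1) (by omega) (by omega)]
      congr 1
      ring
    constructor
    · intro h
      have h' := gen_map (r' := FE (Reg α) L t (m + 1)) π (fun u v huv => ?_) h
      · rwa [πio, πio] at h'
      · rcases huv with (⟨a, b, h1, h2, h3⟩ | ⟨r, hr, j, hc⟩) | ⟨j, h1, h2⟩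
        · rw [h1, h2, πl, πl]
          exact fe_mono ((ih a b).1 h3)
        · refine Relation.EqvGen.rel _ _ (Or.inr ⟨m, r, Nat.lt_succ_self m, hr, j, ?_⟩)
          rcases hc with ⟨h1, h2, h3⟩ | ⟨h1, h2, h3⟩
          · left
            refine ⟨h1, by rw [h2]; exact πl _, ?_⟩
            have e : j * ((L : ℤ) + 2) + r + 2 = j * (L + 2) + (r + 2) := by ring
            rw [h3, e]
            rcases Nat.lt_or_ge (r + 2) (L + 2) with h4 | h4
            · rw [πr j (r + 2) (by omega) (by omega)]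
              congr 1
              ring
            · omega
          · right
            refine ⟨h1, ?_, by rw [h3]; exact πl _⟩
            have e : j * ((L : ℤ) + 2) + r + 1 = j * (L + 2) + (r + 1) := by ring
            rw [h2, e, πr j (r + 1) (by omega) (by omega)]
            congr 1
            ring
        · have e1 : j * ((L : ℤ) + 2) - 1 = (j - 1) * (L + 2) + (L + 1) := by ring
          rw [h1, h2, e1, πr (j - 1) (L + 1) (by omega) (by omega), πr j 1 (by omega) (by omega)]
          have e2 : (j - 1) * (L : ℤ) + (L + 1) - 1 = j * L + 1 - 1 := by ring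
          rw [e2]
          exact Relation.EqvGen.refl _
    · -- lifts of faces
      let Lk : ℤ × ℕ → ℤ ⊕ ℤ → Prop := fun u x => (u.2 = m + 1 ∧ x = Sum.inr (io L u.1)) ∨
        (u.2 ≤ m ∧ ∃ a, x = Sum.inl a ∧ Relation.EqvGen (FE (Reg α) L t m) u (a, m))
      have lk_lk : ∀ u x y, Lk u x → Lk u y → Relation.EqvGen (BC (pats t α m) (t m)) x y := by
        intro u x y h1 h2
        rcases h1 with ⟨h3, h4⟩ | ⟨h3, a, h4, h5⟩
        · rcases h2 with ⟨_, g4⟩ | ⟨g3, _⟩
          · rw [h4, g4]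
            exact Relation.EqvGen.refl _
          · omega
        · rcases h2 with ⟨g3, _⟩ | ⟨g3, b, g4, g5⟩
          · omega
          · rw [h4, g4]
            have h6 := (ih a b).2 ((h5.symm _ _).trans _ _ _ g5)
            exact Relation.EqvGen.rel _ _ (Or.inl (Or.inl ⟨a, b, rfl, rfl, h6⟩))
      have lk_of : ∀ u v x, Relation.EqvGen (FE (Reg α) L t m) u v → Lk v x → Lk u x := by
        intro u v x h1 h2
        rcases h2 with ⟨h3, h4⟩ | ⟨h3, a, h4, h5⟩
        · have := fe_high h1 (Or.inr (by omega))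
          rw [this]
          exact Or.inl ⟨h3, h4⟩
        · refine Or.inr ⟨?_, a, h4, h1.trans _ _ _ h5⟩
          by_contra hc
          have := fe_high h1 (Or.inl (by omega))
          rw [this] at hc
          exact hc h3
      have key : ∀ u v, Relation.EqvGen (FE (Reg α) L t (m + 1)) u v →
          (Relation.EqvGen (FE (Reg α) L t m) u v ∨
            ∃ x y, Lk u x ∧ Lk v y ∧ Relation.EqvGen (BC (pats t α m) (t m)) x y) := by
        intro u v h
        induction h with
        | rel u v h =>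
          rcases h with h | ⟨h, k, h1, h2, j, hc⟩
          · exact Or.inl (Relation.EqvGen.rel _ _ (Or.inl h))
          · rcases Nat.lt_succ_iff_lt_or_eq.1 h1 with h1' | h1'
            · exact Or.inl (Relation.EqvGen.rel _ _ (Or.inr ⟨h, k, h1', h2, j, hc⟩))
            · subst h1'
              right
              rcases hc with ⟨h3, h4, h5⟩ | ⟨h3, h4, h5⟩
              · refine ⟨Sum.inl (j * L + k), Sum.inr (io L (j * L + k + 1)), ?_, ?_, ?_⟩
                · rw [h4]
                  exact Or.inr ⟨le_rfl, _, rfl, Relation.EqvGen.refl _⟩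
                · rw [h5]
                  exact Or.inl ⟨rfl, rfl⟩
                · have b1 : Relation.EqvGen (BC (pats t α h) (t h)) (Sum.inl (j * L + k))
                      (Sum.inr (j * (L + 2) + k + 2)) :=
                    Relation.EqvGen.rel _ _ (Or.inl (Or.inr ⟨k, h2, j, Or.inl ⟨h3, rfl, rfl⟩⟩))
                  rcases Nat.lt_or_ge (k + 1) L with h6 | h6
                  · have e : j * (L : ℤ) + k + 1 = j * L + (k + 1) := by ring
                    rw [e, io_js (by omega) (by omega)]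
                    have e2 : j * ((L : ℤ) + 2) + (k + 1) + 1 = j * (L + 2) + k + 2 := by ring
                    rw [e2]
                    exact b1
                  · have hk2 : (k : ℤ) = L - 1 := by omega
                    have e : j * (L : ℤ) + k + 1 = (j + 1) * L + 0 := by rw [hk2]; ring
                    rw [e, io_js le_rfl (by omega)]
                    have e2 : (j + 1) * ((L : ℤ) + 2) + 0 + 1 = (j + 1) * (L + 2) + 1 := by ring
                    have e3 : j * ((L : ℤ) + 2) + k + 2 = (j + 1) * (L + 2) - 1 := by rw [hk2]; ring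
                    rw [e2]
                    rw [e3] at b1
                    exact b1.trans _ _ _ (Relation.EqvGen.rel _ _ (Or.inr ⟨j + 1, rfl, rfl⟩))
              · refine ⟨Sum.inr (io L (j * L + k)), Sum.inl (j * L + k + 1), ?_, ?_, ?_⟩
                · rw [h4]
                  exact Or.inl ⟨rfl, rfl⟩
                · rw [h5]
                  exact Or.inr ⟨le_rfl, _, rfl, Relation.EqvGen.refl _⟩
                · rw [io_js (by omega) (by omega)]
                  exact Relation.EqvGen.rel _ _ (Or.inl (Or.inr ⟨k, h2, j, Or.inr ⟨h3, rfl, rfl⟩⟩))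
        | refl u => exact Or.inl (Relation.EqvGen.refl u)
        | symm u v _ ih' =>
          rcases ih' with h | ⟨x, y, h1, h2, h3⟩
          · exact Or.inl (h.symm _ _)
          · exact Or.inr ⟨y, x, h2, h1, h3.symm _ _⟩
        | trans u v w _ _ ih1 ih2 =>
          rcases ih1 with h | ⟨x, y, h1, h2, h3⟩
          · rcases ih2 with h' | ⟨x', y', g1, g2, g3⟩
            · exact Or.inl (h.trans _ _ _ h')
            · exact Or.inr ⟨x', y', lk_of u v x' h g1, g2, g3⟩
          · rcases ih2 with h' | ⟨x', y', g1, g2, g3⟩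
            · exact Or.inr ⟨x, y, h1, lk_of w v y (h'.symm _ _) h2, h3⟩
            · exact Or.inr ⟨x, y', h1, g2, (h3.trans _ _ _ (lk_lk v y x' h2 g1)).trans _ _ _ g3⟩
      intro h
      rcases key _ _ h with h | ⟨x, y, h1, h2, h3⟩
      · have := fe_high h (Or.inl (Nat.lt_succ_self m))
        rw [(Prod.mk.inj this).1]
        exact Relation.EqvGen.refl _
      · have k1 : Lk (g, m + 1) (Sum.inr (io L g)) := Or.inl ⟨rfl, rfl⟩
        have k2 : Lk (g', m + 1) (Sum.inr (io L g')) := Or.inl ⟨rfl, rfl⟩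
        exact ((lk_lk _ _ _ k1 h1).trans _ _ _ h3).trans _ _ _ (lk_lk _ _ _ h2 k2)

end CY
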