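import Pool.Agent.Lib.MP_216314_pr.Z.NKa

/-!
# Regions and the moves

`Reg α g g'`: no arc of `α` separates the gaps. Behaviour of this relation under the monoids `e i` and under the insertion.
The gap `g` is cut by `e i` if `g` is congruent to `i + 1` modulo the period.
-/

set_option autoImplicit false

noncomputable section

namespace CY

open Finset

variable {L : ℕ}

theorem reg_refl (α : Pat L) (g : ℤ) : Reg α g g := fun _ => Iff.rfl

theorem reg_trans {α : Pat L} {a b c : ℤ} (h1 : Reg α a b) (h2 : Reg α b c) : Reg α a c :=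
  fun x => (h1 x).trans (h2 x)

/-- a small arc isolates its gap -/
theorem reg_small {α : Pat L} {a g : ℤ} (h : α.f a = a + 1) (hg : Reg α (a + 1) g) : g = a + 1 := by
  have := (hg a).1 ⟨by omega, by rw [h]⟩
  rw [h] at this
  omega

/-- the gap `g` is not cut by `e i` -/
def NCut (L : ℕ) (i g : ℤ) : Prop := ¬ (L : ℤ) ∣ g - i - 1

private theorem kreg_half {α : Pat L} {i g g' : ℤ} (hg : NCut L i g) (hg' : NCut L i g') (h : Reg α g g') (x : ℤ)
    (hx : x < g ∧ g ≤ (Pat.e i α).f x) : x < g' ∧ g' ≤ (Pat.e i α).f x := by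
  unfold NCut at hg hg'
  rw [Pat.e_f] at hx ⊢
  unfold eFun at hx ⊢
  split_ifs at hx ⊢ with c1 c2 c3 c4
  · exfalso
    apply hg
    have : g = x + 1 := by omega
    rw [this]
    have e : x + 1 - i - 1 = x - i := by ring
    rwa [e]
  · omega
  · -- `a = α x`, congruent to `i`
    obtain ⟨a, ha⟩ : ∃ a, a = α.f x := ⟨_, rfl⟩
    obtain ⟨y, hy⟩ : ∃ y, y = α.f (a + 1) := ⟨_, rfl⟩
    rw [← ha] at c3 hx ⊢
    rw [← hy] at hx ⊢
    have ia : α.f a = x := by rw [ha, α.inv]
    have iy : α.f y = a + 1 := by rw [hy, α.inv]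
    have n1 := α.nc x y
    have n2 := α.nc a (a + 1)
    have n3 := α.ne x
    have n4 := α.ne y
    have h1 := h x
    have h2 := h (a + 1)
    rw [← ha] at n1 n3 h1
    rw [← hy] at n2 h2
    rw [iy] at n1 n4
    rw [ia] at n2
    have hx2 : x ≠ a + 1 := by
      intro e
      apply c2
      rw [e]
      have e' : a + 1 - i - 1 = a - i := by ring
      rwa [e']
    have hga : g ≠ a + 1 := by
      intro e
      apply hg
      rw [e]
      have e' : a + 1 - i - 1 = a - i := by ring
      rwa [e']
    have hya : y ≠ a := by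
      intro e
      rw [e, ia] at iy
      exact hx2 iy
    rcases lt_or_gt_of_ne hga with hga | hga
    · have hxa := h1.1 ⟨hx.1, by omega⟩
      refine ⟨hxa.1, ?_⟩
      by_contra hc
      have := n1 (by omega) (by omega)
      omega
    · have hxa := h2.1 ⟨by omega, by omega⟩
      refine ⟨?_, hxa.2⟩
      by_contra hc
      have := n2 (by omega) (by omega)
      omega
  · -- `b = α x`, congruent to `i + 1`
    obtain ⟨b, hb⟩ : ∃ b, b = α.f x := ⟨_, rfl⟩
    obtain ⟨y, hy⟩ : ∃ y, y = α.f (b - 1) := ⟨_, rfl⟩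
    rw [← hb] at c4 hx ⊢
    rw [← hy] at hx ⊢
    have ib : α.f b = x := by rw [hb, α.inv]
    have iy : α.f y = b - 1 := by rw [hy, α.inv]
    have n3 := α.ne x
    have n4 := α.ne y
    have h1 := h x
    have h2 := h (b - 1)
    have h3 := h y
    have h4 := h b
    rw [← hb] at n3 h1
    rw [← hy] at h2
    rw [iy] at n4 h3
    rw [ib] at h4
    have hgb : g ≠ b := by
      intro e
      exact hg (by rw [e]; exact c4)
    have hgb' : g' ≠ b := by
      intro e
      exact hg' (by rw [e]; exact c4)
    have hx1 : x ≠ b - 1 := by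
      intro e
      apply c1
      have e' : x - i = b - i - 1 := by rw [e]; ring
      rwa [e']
    have hyb : y ≠ b := by
      intro e
      rw [e, ib] at iy
      exact hx1 iy
    constructor
    · by_contra hc
      rcases lt_or_gt_of_ne hgb with hgb | hgb
      · have := h1.1 ⟨hx.1, by omega⟩
        omega
      · have := h2.1 ⟨by omega, by omega⟩
        have h5 : ¬ (b < g ∧ g ≤ x) := by omega
        have h6 : ¬ (b < g' ∧ g' ≤ x) := fun c => h5 (h4.2 c)
        omega
    · by_contra hc
      rcases lt_or_gt_of_ne hgb with hgb | hgb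
      · have h7 := h1.1 ⟨hx.1, by omega⟩
        have h5 : ¬ (y < g ∧ g ≤ b - 1) := by omega
        have h6 : ¬ (y < g' ∧ g' ≤ b - 1) := fun c => h5 (h3.2 c)
        omega
      · have := h2.1 ⟨by omega, by omega⟩
        omega
  · exact (h x).1 hx

/-- the regions are preserved, except for the gaps which are cut -/
theorem reg_e_mono {α : Pat L} {i g g' : ℤ} (hg : NCut L i g) (hg' : NCut L i g') (h : Reg α g g') :
    Reg (Pat.e i α) g g' := fun x =>
  ⟨kreg_half hg hg' h x, kreg_half hg' hg (reg_symm α h) x⟩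

/-- the move merges the regions of the gaps `a` and `a + 2` -/
theorem reg_e_merge (α : Pat L) {i a : ℤ} (h : (L : ℤ) ∣ a - i) : Reg (Pat.e i α) a (a + 2) := by
  have e : (Pat.e i α).f a = a + 1 := by
    rw [Pat.e_f]
    unfold eFun
    rw [if_pos h]
  have h1 := reg_outside (Pat.e i α) a (by rw [e]; omega)
  rw [e] at h1
  have h2 : a + 1 + 1 = a + 2 := by ring
  rwa [h2] at h1

/-- the gap which is cut is alone -/
theorem reg_e_cut (α : Pat L) {i a g : ℤ} (h : (L : ℤ) ∣ a - i) (hg : Reg (Pat.e i α) (a + 1) g) : g = a + 1 := by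
  refine reg_small ?_ hg
  rw [Pat.e_f]
  unfold eFun
  rw [if_pos h]

/-- generators of the new relation -/
def Mr (α : Pat L) (i a b : ℤ) : Prop := Reg α a b ∨ (b = a + 2 ∧ (L : ℤ) ∣ a - i)

private theorem kreg_one {α : Pat L} {i g : ℤ} (hg : NCut L i g) (hy : g < (Pat.e i α).f g) :
    Relation.EqvGen (Mr α i) g ((Pat.e i α).f g + 1) := by
  unfold NCut at hg
  rw [Pat.e_f] at hy ⊢
  unfold eFun at hy ⊢
  split_ifs at hy ⊢ with c1 c3 c4
  · refine Relation.EqvGen.rel _ _ (Or.inr ⟨by ring, c1⟩)
  · obtain ⟨a, ha⟩ : ∃ a, a = α.f g := ⟨_, rfl⟩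
    obtain ⟨y, hy'⟩ : ∃ y, y = α.f (a + 1) := ⟨_, rfl⟩
    rw [← ha] at c3 hy ⊢
    rw [← hy'] at hy ⊢
    have ia : α.f a = g := by rw [ha, α.inv]
    have iy : α.f y = a + 1 := by rw [hy', α.inv]
    have n1 := α.nc g y hy
    have n2 := α.nc a (a + 1) (by omega)
    have n3 := α.ne g
    have n4 := α.ne y
    rw [← ha] at n1 n3
    rw [iy] at n1 n4
    rw [ia, ← hy'] at n2
    have hg2 : g ≠ a + 1 := by
      intro e
      apply hg
      have e' : g - i - 1 = a - i := by rw [e]; ring
      rwa [e']
    have hya : y ≠ a := by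
      intro e
      rw [e, ia] at iy
      exact hg2 iy
    have hga : g < a := by
      by_contra hc
      have := n2 (by omega)
      omega
    have hay : a + 1 < y := by
      by_contra hc
      have := n1 (by omega)
      omega
    have r1 : Reg α g (a + 1) := by
      have := reg_outside α g (by rw [← ha]; exact hga)
      rwa [← ha] at this
    have r2 : Reg α (a + 1) (y + 1) := by
      have := reg_outside α (a + 1) (by rw [← hy']; exact hay)
      rwa [← hy'] at this
    exact Relation.EqvGen.rel _ _ (Or.inl (reg_trans r1 r2))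
  · obtain ⟨b, hb⟩ : ∃ b, b = α.f g := ⟨_, rfl⟩
    obtain ⟨y, hy'⟩ : ∃ y, y = α.f (b - 1) := ⟨_, rfl⟩
    rw [← hb] at c4 hy ⊢
    rw [← hy'] at hy ⊢
    have ib : α.f b = g := by rw [hb, α.inv]
    have iy : α.f y = b - 1 := by rw [hy', α.inv]
    have n3 := α.ne g
    have n4 := α.ne y
    rw [← hb] at n3
    rw [iy] at n4
    have hx1 : g ≠ b - 1 := by
      intro e
      apply c1
      have e' : g - i = b - i - 1 := by rw [e]; ring
      rwa [e']
    have hyb : y ≠ b := by
      intro e
      rw [e, ib] at iy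
      exact hx1 iy
    have mg : Relation.EqvGen (Mr α i) (b - 1) (b + 1) := by
      refine Relation.EqvGen.rel _ _ (Or.inr ⟨by ring, ?_⟩)
      have e' : b - 1 - i = b - i - 1 := by ring
      rwa [e']
    rcases lt_or_gt_of_ne n4 with h4 | h4
    · -- `b - 1 < y`
      have hbg : b < g := by
        by_contra hc
        have := α.nc g (b - 1) (by omega) (by rw [← hb]; omega)
        rw [← hb, ← hy'] at this
        omega
      have r1 : Reg α (b + 1) g := by
        have := reg_inside α b (by rw [ib]; exact hbg)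
        rwa [ib] at this
      have r2 : Reg α (b - 1) (y + 1) := by
        have := reg_outside α (b - 1) (by rw [← hy']; exact h4)
        rwa [← hy'] at this
      have s1 : Relation.EqvGen (Mr α i) g (b + 1) := Relation.EqvGen.rel _ _ (Or.inl (reg_symm α r1))
      have s2 : Relation.EqvGen (Mr α i) (b - 1) (y + 1) := Relation.EqvGen.rel _ _ (Or.inl r2)
      exact s1.trans _ _ _ ((mg.symm _ _).trans _ _ _ s2)
    · have r1 : Reg α g (b + 1) := by
        have := reg_outside α g (by rw [← hb]; omega)
        rwa [← hb] at this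
      have r2 : Reg α (y + 1) (b - 1) := by
        have := reg_inside α y (by rw [iy]; exact h4)
        rwa [iy] at this
      have s1 : Relation.EqvGen (Mr α i) g (b + 1) := Relation.EqvGen.rel _ _ (Or.inl r1)
      have s2 : Relation.EqvGen (Mr α i) (b - 1) (y + 1) := Relation.EqvGen.rel _ _ (Or.inl (reg_symm α r2))
      exact s1.trans _ _ _ ((mg.symm _ _).trans _ _ _ s2)
  · refine Relation.EqvGen.rel _ _ (Or.inl ?_)
    exact reg_outside α g hy

private theorem kreg_gen {α : Pat L} {i : ℤ} (n : ℕ) : ∀ g g' : ℤ, g ≤ g' → (g' - g).toNat ≤ n → NCut L i g →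
    NCut L i g' → Reg (Pat.e i α) g g' → Relation.EqvGen (Mr α i) g g' := by
  induction n with
  | zero =>
    intro g g' h1 h2 _ _ _
    have : g = g' := by omega
    rw [this]
    exact Relation.EqvGen.refl _
  | succ n ih =>
    intro g g' h1 h2 hg hg' h
    rcases eq_or_lt_of_le h1 with h3 | h3
    · rw [h3]
      exact Relation.EqvGen.refl _
    obtain ⟨y, hy⟩ : ∃ y, y = (Pat.e i α).f g := ⟨_, rfl⟩
    have iy : (Pat.e i α).f y = g := by rw [hy, (Pat.e i α).inv]
    have ne : y ≠ g := by
      rw [hy]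
      exact (Pat.e i α).ne g
    have hgy : g < y := by
      by_contra hc
      have := (h y).1 ⟨by omega, by rw [iy]⟩
      rw [iy] at this
      omega
    have hyg' : y < g' := by
      by_contra hc
      have := (h g).2 ⟨h3, by rw [← hy]; omega⟩
      omega
    have r1 : Reg (Pat.e i α) g (y + 1) := by
      have := reg_outside (Pat.e i α) g (by rw [← hy]; exact hgy)
      rwa [← hy] at this
    have hcy : NCut L i (y + 1) := by
      intro hd
      have hd' : (L : ℤ) ∣ y - i := by
        have e : y + 1 - i - 1 = y - i := by ring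
        rwa [e] at hd
      have e2 : (Pat.e i α).f y = y + 1 := by
        rw [Pat.e_f]
        unfold eFun
        rw [if_pos hd']
      rw [iy] at e2
      omega
    have r2 : Reg (Pat.e i α) (y + 1) g' := reg_trans (reg_symm _ r1) h
    have s1 := kreg_one hg (by rw [← hy]; exact hgy)
    rw [← hy] at s1
    exact s1.trans _ _ _ (ih (y + 1) g' (by omega) (by omega) hcy hg' r2)

theorem ncut_left (hL : 2 ≤ L) {i a : ℤ} (h : (L : ℤ) ∣ a - i) : NCut L i a := by
  intro h'
  have := dvd_sub h h'
  have e : a - i - (a - i - 1) = 1 := by ring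
  rw [e] at this
  have := Int.le_of_dvd one_pos this
  omega

theorem ncut_right (hL : 2 ≤ L) {i a : ℤ} (h : (L : ℤ) ∣ a - i) : NCut L i (a + 2) := by
  intro h'
  have := dvd_sub h' h
  have e : a + 2 - i - 1 - (a - i) = 1 := by ring
  rw [e] at this
  have := Int.le_of_dvd one_pos this
  omega

/-- the new regions are generated by the old ones and the merges -/
theorem reg_e_iff {α : Pat L} {i g g' : ℤ} (hg : NCut L i g) (hg' : NCut L i g') :
    Reg (Pat.e i α) g g' ↔ Relation.EqvGen (Mr α i) g g' := by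
  constructor
  · intro h
    rcases le_total g g' with h1 | h1
    · exact kreg_gen _ g g' h1 le_rfl hg hg' h
    · exact (kreg_gen _ g' g h1 le_rfl hg' hg (reg_symm _ h)).symm _ _
  · have key : ∀ u v : ℤ, Relation.EqvGen (Mr α i) u v → (Reg α u v ∨ ∃ w w', NCut L i w ∧ NCut L i w' ∧
        Reg α u w ∧ Reg (Pat.e i α) w w' ∧ Reg α w' v) := by
      intro u v h
      induction h with
      | rel u v h =>
        rcases h with h | ⟨h1, h2⟩
        · exact Or.inl h
        · right
          refine ⟨u, v, ncut_left α.two_le h2, ?_, reg_refl α u, ?_, reg_refl α v⟩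
          · rw [h1]
            exact ncut_right α.two_le h2
          · rw [h1]
            exact reg_e_merge α h2
      | refl u => exact Or.inl (reg_refl α u)
      | symm u v _ ih =>
        rcases ih with h | ⟨w, w', h1, h2, h3, h4, h5⟩
        · exact Or.inl (reg_symm α h)
        · exact Or.inr ⟨w', w, h2, h1, reg_symm α h5, reg_symm _ h4, reg_symm α h3⟩
      | trans u v z _ _ ih1 ih2 =>
        rcases ih1 with h | ⟨w, w', h1, h2, h3, h4, h5⟩
        · rcases ih2 with h' | ⟨w, w', h1, h2, h3, h4, h5⟩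
          · exact Or.inl (reg_trans h h')
          · exact Or.inr ⟨w, w', h1, h2, reg_trans h h3, h4, h5⟩
        · rcases ih2 with h' | ⟨w2, w2', g1, g2, g3, g4, g5⟩
          · exact Or.inr ⟨w, w', h1, h2, h3, h4, reg_trans h5 h'⟩
          · exact Or.inr ⟨w, w2', h1, g2, h3, reg_trans (reg_trans h4 (reg_e_mono h2 g1 (reg_trans h5 g3))) g4, g5⟩
    intro h
    rcases key g g' h with h | ⟨w, w', h1, h2, h3, h4, h5⟩
    · exact reg_e_mono hg hg' h
    · exact reg_trans (reg_trans (reg_e_mono hg h1 h3) h4) (reg_e_mono h2 hg' h5)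

/-- the new gap `G` lies above the old gap `g` -/
def Ab (L : ℕ) (i g G : ℤ) : Prop := ∀ k : ℤ, up L i k < G ↔ k < g

/-- regions under insertion -/
theorem reg_ins {α : Pat L} {i g g' G G' : ℤ} (h : Ab L i g G) (h' : Ab L i g' G') (hG : NCut (L + 2) i G)
    (hG' : NCut (L + 2) i G') : Reg (Pat.ins i α) G G' ↔ Reg α g g' := by
  have side : ∀ k : ℤ, ∀ g G : ℤ, Ab L i g G → ((up L i k < G ∧ G ≤ up L i (α.f k)) ↔ (k < g ∧ g ≤ α.f k)) := by
    intro k g G hAb
    have e1 := hAb k
    have e2 := hAb (α.f k)
    constructor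
    · rintro ⟨a, b⟩
      exact ⟨e1.1 a, by by_contra hc; exact absurd (e2.2 (by omega)) (by omega)⟩
    · rintro ⟨a, b⟩
      exact ⟨e1.2 a, by by_contra hc; exact absurd (e2.1 (by omega)) (by omega)⟩
  constructor
  · intro H k
    have := H (up L i k)
    rw [Pat.ins_up, side k g G h, side k g' G' h'] at this
    exact this
  · intro H X
    by_cases c1 : (L + 2 : ℤ) ∣ X - i
    · have e : (Pat.ins i α).f X = X + 1 := by
        rw [Pat.ins_f]
        unfold insFun
        rw [if_pos c1]
      rw [e]
      have aux : ∀ G : ℤ, NCut (L + 2) i G → ¬ (X < G ∧ G ≤ X + 1) := by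
        intro G hG hc
        apply hG
        have e1 : G - i - 1 = X - i := by omega
        rw [e1]
        push_cast
        exact c1
      exact ⟨fun c => absurd c (aux G hG), fun c => absurd c (aux G' hG')⟩
    by_cases c2 : (L + 2 : ℤ) ∣ X - i - 1
    · have e : (Pat.ins i α).f X = X - 1 := by
        rw [Pat.ins_f]
        unfold insFun
        rw [if_neg c1, if_pos c2]
      rw [e]
      constructor
      · intro c
        omega
      · intro c
        omega
    · obtain ⟨k, rfl⟩ : ∃ k, up L i k = X := ⟨dn L i X, up_dn α.pos i X c1 c2⟩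
      rw [Pat.ins_up, side k g G h, side k g' G' h']
      exact H k

end CY
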