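import Pool.Agent.Lib.MP_216314_pr.K.KReg

/-!
# A row of tiles

`rowSt t α k`: the pattern of period `L + 2` after `k` tiles of a row: insertion of the horizontal line at the seam, then the
monoid `e (k+1)` for every tile `k` with `t k`. `rowP t α`: the line is closed across the seam.
Frontier of the state `k`: the gap `G = j (L+2) + s` is the new (top) gap `inr G` for `1 ≤ s ≤ k + 1`, the old gap
`inl (j L)` for `s = 0` and `inl (j L + s - 2)` for `s ≥ k + 2`.
`BE`: generators of the connection of the gaps. The regions of the state are the classes.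
-/

set_option autoImplicit false

noncomputable section

namespace CY

open Finset

variable {L : ℕ}

open Classical in
/-- the pattern after `k` tiles of the row -/
def rowSt (t : ℕ → Prop) (α : Pat L) : ℕ → Pat (L + 2)
  | 0 => Pat.ins 0 α
  | k + 1 => if t k then Pat.e ((k : ℤ) + 1) (rowSt t α k) else rowSt t α k

theorem rowSt_of {t : ℕ → Prop} {α : Pat L} {k : ℕ} (h : t k) :
    rowSt t α (k + 1) = Pat.e ((k : ℤ) + 1) (rowSt t α k) := if_pos h

theorem rowSt_not {t : ℕ → Prop} {α : Pat L} {k : ℕ} (h : ¬ t k) : rowSt t α (k + 1) = rowSt t α k := if_neg h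

/-- the pattern after the row -/
def rowP (t : ℕ → Prop) (α : Pat L) : Pat L := Pat.cap α.pos 0 (Pat.rotInv (rowSt t α L))

/-- the frontier -/
def fr (L k : ℕ) (G : ℤ) : ℤ ⊕ ℤ :=
  if G % (L + 2) = 0 then Sum.inl (G / (L + 2) * L)
  else if G % (L + 2) ≤ k + 1 then Sum.inr G
  else Sum.inl (G / (L + 2) * L + G % (L + 2) - 2)

/-- generators of the connection after `k` tiles -/
def BE (α : Pat L) (t : ℕ → Prop) (k : ℕ) (u v : ℤ ⊕ ℤ) : Prop :=
  (∃ g g' : ℤ, u = Sum.inl g ∧ v = Sum.inl g' ∧ Reg α g g') ∨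
  ∃ r : ℕ, r < k ∧ ∃ j : ℤ,
    (¬ t r ∧ u = Sum.inl (j * L + r) ∧ v = Sum.inr (j * (L + 2) + r + 2)) ∨
    (t r ∧ u = Sum.inr (j * (L + 2) + r + 1) ∧ v = Sum.inl (j * L + r + 1))

/-- generators of the connection after the row: the two ends of the line are joined -/
def BC (α : Pat L) (t : ℕ → Prop) (u v : ℤ ⊕ ℤ) : Prop :=
  BE α t L u v ∨ ∃ j : ℤ, u = Sum.inr (j * (L + 2) - 1) ∧ v = Sum.inr (j * (L + 2) + 1)

section gen

variable {X Y : Type}

theorem gen_map {r : X → X → Prop} {r' : Y → Y → Prop} (ψ : X → Y)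
    (h : ∀ u v, r u v → Relation.EqvGen r' (ψ u) (ψ v)) {u v : X} (huv : Relation.EqvGen r u v) :
    Relation.EqvGen r' (ψ u) (ψ v) := by
  induction huv with
  | rel u v h1 => exact h u v h1
  | refl u => exact Relation.EqvGen.refl _
  | symm u v _ ih => exact ih.symm _ _
  | trans u v w _ _ ih1 ih2 => exact ih1.trans _ _ _ ih2

theorem gen_mono {r r' : X → X → Prop} (h : ∀ u v, r u v → r' u v) {u v : X} (huv : Relation.EqvGen r u v) :
    Relation.EqvGen r' u v :=
  gen_map id (fun u v h1 => Relation.EqvGen.rel _ _ (h u v h1)) huv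

theorem gen_iso {r : X → X → Prop} {x : X} (h : ∀ u v, r u v → u ≠ x ∧ v ≠ x) {u v : X}
    (huv : Relation.EqvGen r u v) : u = x ↔ v = x := by
  induction huv with
  | rel u v h1 =>
    have := h u v h1
    exact ⟨fun e => absurd e this.1, fun e => absurd e this.2⟩
  | refl u => exact Iff.rfl
  | symm u v _ ih => exact ih.symm
  | trans u v w _ _ ih1 ih2 => exact ih1.trans ih2

/-- adding merges between points of the frontier -/
theorem gen_merge {r s : X → X → Prop} {φ : Y → X} {Q M : Y → Y → Prop}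
    (hQ : ∀ a b, Q a b ↔ Relation.EqvGen r (φ a) (φ b)) (h1 : ∀ a b, M a b → s (φ a) (φ b))
    (h2 : ∀ u v, s u v → ∃ a b, M a b ∧ u = φ a ∧ v = φ b) (a b : Y) :
    Relation.EqvGen (fun a b => Q a b ∨ M a b) a b ↔ Relation.EqvGen (fun u v => r u v ∨ s u v) (φ a) (φ b) := by
  constructor
  · intro h
    refine gen_map φ (fun a b hab => ?_) h
    rcases hab with hab | hab
    · exact gen_mono (fun _ _ => Or.inl) ((hQ a b).1 hab)
    · exact Relation.EqvGen.rel _ _ (Or.inr (h1 a b hab))
  · have key : ∀ u v : X, Relation.EqvGen (fun u v => r u v ∨ s u v) u v → (Relation.EqvGen r u v ∨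
        ∃ a b, Relation.EqvGen r u (φ a) ∧ Relation.EqvGen (fun a b => Q a b ∨ M a b) a b ∧
          Relation.EqvGen r (φ b) v) := by
      intro u v h
      induction h with
      | rel u v h =>
        rcases h with h | h
        · exact Or.inl (Relation.EqvGen.rel _ _ h)
        · obtain ⟨a, b, h3, h4, h5⟩ := h2 u v h
          refine Or.inr ⟨a, b, ?_, Relation.EqvGen.rel _ _ (Or.inr h3), ?_⟩
          · rw [h4]
            exact Relation.EqvGen.refl _
          · rw [h5]
            exact Relation.EqvGen.refl _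
      | refl u => exact Or.inl (Relation.EqvGen.refl u)
      | symm u v _ ih =>
        rcases ih with h | ⟨a, b, h3, h4, h5⟩
        · exact Or.inl (h.symm _ _)
        · exact Or.inr ⟨b, a, h5.symm _ _, h4.symm _ _, h3.symm _ _⟩
      | trans u v w _ _ ih1 ih2 =>
        rcases ih1 with h | ⟨a, b, h3, h4, h5⟩
        · rcases ih2 with h' | ⟨a', b', g3, g4, g5⟩
          · exact Or.inl (h.trans _ _ _ h')
          · exact Or.inr ⟨a', b', h.trans _ _ _ g3, g4, g5⟩
        · rcases ih2 with h' | ⟨a', b', g3, g4, g5⟩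
          · exact Or.inr ⟨a, b, h3, h4, h5.trans _ _ _ h'⟩
          · refine Or.inr ⟨a, b', h3, ?_, g5⟩
            have h6 : Relation.EqvGen (fun a b => Q a b ∨ M a b) b a' :=
              Relation.EqvGen.rel _ _ (Or.inl ((hQ b a').2 (h5.trans _ _ _ g3)))
            exact (h4.trans _ _ _ h6).trans _ _ _ g4
    intro h
    rcases key _ _ h with h | ⟨c, d, h3, h4, h5⟩
    · exact Relation.EqvGen.rel _ _ (Or.inl ((hQ a b).2 h))
    · have h6 : Relation.EqvGen (fun a b => Q a b ∨ M a b) a c :=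
        Relation.EqvGen.rel _ _ (Or.inl ((hQ a c).2 h3))
      have h7 : Relation.EqvGen (fun a b => Q a b ∨ M a b) d b :=
        Relation.EqvGen.rel _ _ (Or.inl ((hQ d b).2 h5))
      exact (h6.trans _ _ _ h4).trans _ _ _ h7

end gen

/-! ### Arithmetic of the frontier -/

theorem fr_zero_mod {k : ℕ} (j : ℤ) : fr L k (j * (L + 2)) = Sum.inl (j * L) := by
  unfold fr
  rw [Int.mul_emod_left, if_pos rfl, Int.mul_ediv_cancel _ (by omega)]

theorem fr_mod {k : ℕ} (j s : ℤ) (h1 : 1 ≤ s) (h2 : s < L + 2) :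
    fr L k (j * (L + 2) + s) = if s ≤ k + 1 then Sum.inr (j * (L + 2) + s) else Sum.inl (j * L + s - 2) := by
  have e1 : (j * (L + 2) + s) % (L + 2) = s := by
    rw [add_comm, Int.add_mul_emod_self_right, Int.emod_eq_of_lt (by omega) h2]
  have e2 : (j * (L + 2) + s) / (L + 2) = j := by
    rw [add_comm, Int.add_mul_ediv_right _ _ (by omega), Int.ediv_eq_zero_of_lt (by omega) h2, zero_add]
  unfold fr
  rw [e1, e2, if_neg (by omega)]

/-- every gap is `j (L+2) + s` -/
theorem exists_js (L : ℕ) (G : ℤ) : ∃ j s : ℤ, G = j * (L + 2) + s ∧ 0 ≤ s ∧ s < L + 2 :=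
  ⟨G / (L + 2), G % (L + 2), (Int.ediv_mul_add_emod G (L + 2)).symm, Int.emod_nonneg _ (by omega),
    Int.emod_lt_of_pos _ (by omega)⟩

theorem up_js (hL : 0 < L) (a r : ℤ) (h0 : 0 ≤ r) (h1 : r < L) : up L 0 (a * L + r) = a * (L + 2) + r + 2 := by
  unfold up
  have e : (a * L + r - 0) / (L : ℤ) = a := by
    rw [sub_zero, add_comm, Int.add_mul_ediv_right _ _ (by omega), Int.ediv_eq_zero_of_lt h0 h1, zero_add]
  rw [e]
  ring

/-- comparison of two numbers written in base `P` -/
theorem js_lt {P a j r s : ℤ} (h0 : 0 ≤ r) (h1 : r < P) (h2 : 0 ≤ s) (h3 : s < P) :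
    a * P + r < j * P + s ↔ a < j ∨ (a = j ∧ r < s) := by
  rcases lt_trichotomy a j with h | h | h
  · have : (a + 1) * P ≤ j * P := mul_le_mul_of_nonneg_right (by omega) (by omega)
    have e : (a + 1) * P = a * P + P := by ring
    constructor
    · intro _
      exact Or.inl h
    · intro _
      omega
  · rw [h]
    constructor
    · intro h4
      exact Or.inr ⟨rfl, by omega⟩
    · intro h4
      omega
  · have : (j + 1) * P ≤ a * P := mul_le_mul_of_nonneg_right (by omega) (by omega)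
    have e : (j + 1) * P = j * P + P := by ring
    constructor
    · intro h4
      omega
    · intro h4
      omega

/-- the gap above -/
theorem ab_zero (hL : 0 < L) (j s : ℤ) (h1 : 2 ≤ s) (h2 : s < L + 2) :
    Ab L 0 (j * L + s - 2) (j * (L + 2) + s) := by
  intro k
  obtain ⟨a, r, hk, h3, h4⟩ : ∃ a r : ℤ, k = a * L + r ∧ 0 ≤ r ∧ r < L :=
    ⟨k / L, k % L, (Int.ediv_mul_add_emod k L).symm, Int.emod_nonneg _ (by omega),
      Int.emod_lt_of_pos _ (by omega)⟩
  rw [hk, up_js hL a r h3 h4]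
  have e1 := js_lt (P := (L : ℤ) + 2) (a := a) (j := j) (r := r + 2) (s := s) (by omega) (by omega) (by omega) h2
  have e2 := js_lt (P := (L : ℤ)) (a := a) (j := j) (r := r) (s := s - 2) h3 h4 (by omega) (by omega)
  have e3 : a * ((L : ℤ) + 2) + r + 2 = a * (L + 2) + (r + 2) := by ring
  have e4 : j * (L : ℤ) + s - 2 = j * L + (s - 2) := by ring
  rw [e3, e4, e1, e2]
  omega

theorem ab_zero' (hL : 0 < L) (j : ℤ) : Ab L 0 (j * L) (j * (L + 2)) := by
  intro k
  obtain ⟨a, r, hk, h3, h4⟩ : ∃ a r : ℤ, k = a * L + r ∧ 0 ≤ r ∧ r < L :=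
    ⟨k / L, k % L, (Int.ediv_mul_add_emod k L).symm, Int.emod_nonneg _ (by omega),
      Int.emod_lt_of_pos _ (by omega)⟩
  rw [hk, up_js hL a r h3 h4]
  have e1 := js_lt (P := (L : ℤ) + 2) (a := a) (j := j) (r := r + 2) (s := 0) (by omega) (by omega) le_rfl (by omega)
  have e2 := js_lt (P := (L : ℤ)) (a := a) (j := j) (r := r) (s := 0) h3 h4 le_rfl (by omega)
  have e3 : a * ((L : ℤ) + 2) + r + 2 = a * (L + 2) + (r + 2) := by ring
  rw [add_zero] at e1 e2
  rw [e3, e1, e2]
  omega

theorem dvd_js {P j s i : ℤ} (h1 : 0 ≤ s) (h2 : s < P) (h3 : 0 ≤ i) (h4 : i < P) : P ∣ j * P + s - i ↔ s = i := by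
  constructor
  · intro h
    have h5 : P ∣ s - i := by
      have := dvd_sub h (dvd_mul_left P j)
      have e : j * P + s - i - j * P = s - i := by ring
      rwa [e] at this
    rcases lt_trichotomy s i with h6 | h6 | h6
    · have h7 : P ∣ i - s := by
        have h8 : P ∣ -(s - i) := dvd_neg.2 h5
        rw [neg_sub] at h8
        exact h8
      have h9 := Int.le_of_dvd (by omega : 0 < i - s) h7
      omega
    · exact h6
    · have := Int.le_of_dvd (by omega : 0 < s - i) h5
      omega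
  · intro h
    rw [h]
    exact ⟨j, by ring⟩

end CY
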