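import Pool.Agent.Lib.MP_216314_pr.K.KRow

/-!
# The regions of the state are the classes of the frontier

`reg_rowSt`: after `k` tiles. `reg_row`: after the row.
-/

set_option autoImplicit false

noncomputable section

namespace CY

open Finset

variable {L : ℕ}

/-- the new gaps which are not yet reached are alone -/
theorem be_iso {α : Pat L} {t : ℕ → Prop} {k : ℕ} (hk : k ≤ L) {j s : ℤ} (hs : s = 0 ∨ (k : ℤ) + 2 ≤ s) (h2 : 0 ≤ s)
    (h3 : s < L + 2) (u v : ℤ ⊕ ℤ) (h : BE α t k u v) :
    u ≠ Sum.inr (j * (L + 2) + s) ∧ v ≠ Sum.inr (j * (L + 2) + s) := by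
  have aux : ∀ j' r' : ℤ, 1 ≤ r' → r' ≤ k + 1 → j' * (L + 2) + r' ≠ j * (L + 2) + s := by
    intro j' r' h4 h5 h6
    have e1 := js_lt (P := (L : ℤ) + 2) (a := j') (j := j) (r := r') (s := s) (by omega) (by omega) h2 h3
    have e2 := js_lt (P := (L : ℤ) + 2) (a := j) (j := j') (r := s) (s := r') h2 h3 (by omega) (by omega)
    rw [h6] at e1 e2
    have n1 : ¬ (j' < j ∨ (j' = j ∧ r' < s)) := fun c => lt_irrefl _ (e1.2 c)
    have n2 : ¬ (j < j' ∨ (j = j' ∧ s < r')) := fun c => lt_irrefl _ (e2.2 c)
    omega
  rcases h with ⟨g, g', h4, h5, _⟩ | ⟨r, hr, j', h4 | h4⟩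
  · rw [h4, h5]
    exact ⟨Sum.inl_ne_inr, Sum.inl_ne_inr⟩
  · obtain ⟨_, h5, h6⟩ := h4
    rw [h5, h6]
    refine ⟨Sum.inl_ne_inr, ?_⟩
    intro hc
    have := Sum.inr.inj hc
    exact aux j' ((r : ℤ) + 2) (by omega) (by omega) (by rw [← this]; ring)
  · obtain ⟨_, h5, h6⟩ := h4
    rw [h5, h6]
    refine ⟨?_, Sum.inl_ne_inr⟩
    intro hc
    have := Sum.inr.inj hc
    exact aux j' ((r : ℤ) + 1) (by omega) (by omega) (by rw [← this]; ring)

theorem be_zero {α : Pat L} {t : ℕ → Prop} {u v : ℤ ⊕ ℤ} (h : Relation.EqvGen (BE α t 0) u v) :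
    u = v ∨ ∃ g g', u = Sum.inl g ∧ v = Sum.inl g' ∧ Reg α g g' := by
  induction h with
  | rel u v h =>
    rcases h with h | ⟨r, hr, _⟩
    · exact Or.inr h
    · omega
  | refl u => exact Or.inl rfl
  | symm u v _ ih =>
    rcases ih with h | ⟨g, g', h1, h2, h3⟩
    · exact Or.inl h.symm
    · exact Or.inr ⟨g', g, h2, h1, reg_symm α h3⟩
  | trans u v w _ _ ih1 ih2 =>
    rcases ih1 with h | ⟨g, g', h1, h2, h3⟩
    · rw [h]
      exact ih2
    · rcases ih2 with h | ⟨a, a', g1, g2, g3⟩
      · rw [← h]
        exact Or.inr ⟨g, g', h1, h2, h3⟩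
      · rw [h2] at g1
        have := Sum.inl.inj g1
        rw [← this] at g3
        exact Or.inr ⟨g, a', h1, g2, reg_trans h3 g3⟩

theorem be_inl {α : Pat L} {t : ℕ → Prop} {k : ℕ} {g g' : ℤ} (h : Reg α g g') :
    Relation.EqvGen (BE α t k) (Sum.inl g) (Sum.inl g') :=
  Relation.EqvGen.rel _ _ (Or.inl ⟨g, g', rfl, rfl, h⟩)

theorem ncut_js {j s i : ℤ} (h1 : 0 ≤ s) (h2 : s < L + 2) (h3 : 0 ≤ i) (h4 : i < L + 1) :
    NCut (L + 2) i (j * (L + 2) + s) ↔ s ≠ i + 1 := by
  unfold NCut
  have e : j * ((L : ℤ) + 2) + s - i - 1 = j * (L + 2) + s - (i + 1) := by ring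
  rw [e]
  push_cast
  rw [dvd_js h1 h2 (by omega) (by omega)]

private theorem krowb_base {α : Pat L} {t : ℕ → Prop} (G G' : ℤ) :
    Reg (Pat.ins 0 α) G G' ↔ Relation.EqvGen (BE α t 0) (fr L 0 G) (fr L 0 G') := by
  have hL := α.pos
  -- the gap below
  have below : ∀ j s : ℤ, 0 ≤ s → s < L + 2 → s ≠ 1 → ∃ g, Ab L 0 g (j * (L + 2) + s) ∧
      fr L 0 (j * (L + 2) + s) = Sum.inl g ∧ NCut (L + 2) 0 (j * (L + 2) + s) := by
    intro j s h1 h2 h3
    have hc : NCut (L + 2) 0 (j * (L + 2) + s) := (ncut_js h1 h2 le_rfl (by omega)).2 (by omega)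
    rcases eq_or_lt_of_le h1 with h4 | h4
    · rw [← h4, add_zero] at hc ⊢
      exact ⟨j * L, ab_zero' hL j, fr_zero_mod j, hc⟩
    · refine ⟨j * L + s - 2, ab_zero hL j s (by omega) h2, ?_, hc⟩
      rw [fr_mod j s (by omega) h2, if_neg (by omega)]
  have cut : ∀ j : ℤ, fr L 0 (j * (L + 2) + 1) = Sum.inr (j * (L + 2) + 1) := by
    intro j
    rw [fr_mod j 1 le_rfl (by omega), if_pos (by omega)]
  have small : ∀ j : ℤ, (Pat.ins 0 α).f (j * (L + 2)) = j * (L + 2) + 1 := by
    intro j
    rw [Pat.ins_f]
    unfold insFun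
    rw [if_pos ⟨j, by ring⟩]
  obtain ⟨j, s, hG, h1, h2⟩ := exists_js L G
  obtain ⟨j', s', hG', h1', h2'⟩ := exists_js L G'
  rw [hG, hG']
  by_cases c : s = 1
  · rw [c, cut]
    constructor
    · intro h
      have := reg_small (small j) h
      rw [this, cut]
      exact Relation.EqvGen.refl _
    · intro h
      rcases be_zero h with h | ⟨g, _, h, _⟩
      · have h3 : s' = 1 := by
          by_contra hc
          obtain ⟨g, _, hg, _⟩ := below j' s' h1' h2' hc
          rw [hg] at h
          exact Sum.inr_ne_inl h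
        rw [h3, cut] at h
        have := Sum.inr.inj h
        rw [h3, this]
        exact reg_refl _ _
      · exact absurd h Sum.inr_ne_inl
  · obtain ⟨g, hg1, hg2, hg3⟩ := below j s h1 h2 c
    by_cases c' : s' = 1
    · rw [c', cut, hg2]
      constructor
      · intro h
        have := reg_small (small j') (reg_symm _ h)
        rw [this, cut] at hg2
        exact absurd hg2 Sum.inr_ne_inl
      · intro h
        rcases be_zero h with h | ⟨_, _, _, h, _⟩
        · exact absurd h Sum.inl_ne_inr
        · exact absurd h Sum.inr_ne_inl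
    · obtain ⟨g', hg1', hg2', hg3'⟩ := below j' s' h1' h2' c'
      rw [reg_ins hg1 hg1' hg3 hg3', hg2, hg2']
      constructor
      · exact be_inl
      · intro h
        rcases be_zero h with h | ⟨a, a', h3, h4, h5⟩
        · rw [Sum.inl.inj h]
          exact reg_refl _ _
        · rw [Sum.inl.inj h3, Sum.inl.inj h4]
          exact h5

/-- one more tile, letter absent: the new gap hangs at the old one -/
private theorem krowb_not {α : Pat L} {t : ℕ → Prop} {k : ℕ} (hk : k < L) (ht : ¬ t k) (G G' : ℤ) :
    Relation.EqvGen (BE α t (k + 1)) (fr L (k + 1) G) (fr L (k + 1) G') ↔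
      Relation.EqvGen (BE α t k) (fr L k G) (fr L k G') := by
  have mono : ∀ u v, Relation.EqvGen (BE α t k) u v → Relation.EqvGen (BE α t (k + 1)) u v := by
    intro u v h
    refine gen_mono (fun a b hab => ?_) h
    rcases hab with hab | ⟨r, hr, hab⟩
    · exact Or.inl hab
    · exact Or.inr ⟨r, by omega, hab⟩
  have hfr : ∀ G, fr L (k + 1) G = fr L k G ∨ ∃ j : ℤ, G = j * (L + 2) + k + 2 ∧
      fr L (k + 1) G = Sum.inr (j * (L + 2) + k + 2) ∧ fr L k G = Sum.inl (j * L + k) := by
    intro G
    obtain ⟨j, s, hG, h1, h2⟩ := exists_js L G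
    rw [hG]
    rcases eq_or_lt_of_le h1 with h4 | h4
    · left
      rw [← h4, add_zero, fr_zero_mod, fr_zero_mod]
    · rw [fr_mod j s (by omega) h2, fr_mod j s (by omega) h2]
      by_cases c : s = k + 2
      · right
        refine ⟨j, by rw [c]; ring, ?_, ?_⟩
        · rw [if_pos (by push_cast; omega), c]
          congr 1
          ring
        · rw [if_neg (by omega), c]
          congr 1
          ring
      · left
        by_cases c' : s ≤ k + 1
        · rw [if_pos c', if_pos (by push_cast; omega)]
        · rw [if_neg c', if_neg (by push_cast; omega)]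
  constructor
  · intro h
    -- the retraction
    let ψ : ℤ ⊕ ℤ → ℤ ⊕ ℤ := fun x => Sum.elim (fun g => Sum.inl g)
      (fun G => if (L + 2 : ℤ) ∣ G - (k + 2) then Sum.inl ((G - (k + 2)) / (L + 2) * L + k) else Sum.inr G) x
    have ψl : ∀ g, ψ (Sum.inl g) = Sum.inl g := fun _ => rfl
    have ψr : ∀ j : ℤ, ψ (Sum.inr (j * (L + 2) + k + 2)) = Sum.inl (j * L + k) := by
      intro j
      show (if (L + 2 : ℤ) ∣ (j * (L + 2) + k + 2) - (k + 2) then _ else _) = _
      have e : (j * ((L : ℤ) + 2) + k + 2) - (k + 2) = j * (L + 2) := by ring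
      rw [e, if_pos ⟨j, by ring⟩, Int.mul_ediv_cancel _ (by omega)]
    have ψn : ∀ j s : ℤ, 0 ≤ s → s < L + 2 → s ≠ k + 2 → ψ (Sum.inr (j * (L + 2) + s)) = Sum.inr (j * (L + 2) + s) := by
      intro j s h1 h2 h3
      show (if (L + 2 : ℤ) ∣ (j * (L + 2) + s) - (k + 2) then _ else _) = _
      rw [if_neg]
      intro hd
      exact h3 ((dvd_js h1 h2 (by omega) (by omega)).1 hd)
    have ψf : ∀ G, ψ (fr L (k + 1) G) = fr L k G := by
      intro G
      rcases hfr G with h1 | ⟨j, _, h2, h3⟩
      · rw [h1]
        obtain ⟨j, s, hG, h1, h2⟩ := exists_js L G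
        rw [hG]
        rcases eq_or_lt_of_le h1 with h4 | h4
        · rw [← h4, add_zero, fr_zero_mod]
          exact ψl _
        · rw [fr_mod j s (by omega) h2]
          by_cases c' : s ≤ k + 1
          · rw [if_pos c', ψn j s (by omega) h2 (by omega)]
          · rw [if_neg c']
            exact ψl _
      · rw [h2, h3]
        exact ψr j
    have h' := gen_map (r' := BE α t k) ψ (fun u v huv => ?_) h
    · rwa [ψf, ψf] at h'
    · rcases huv with ⟨g, g', h1, h2, h3⟩ | ⟨r, hr, j, hc⟩
      · rw [h1, h2]
        exact be_inl h3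
      · rcases Nat.lt_succ_iff_lt_or_eq.1 hr with hr' | hr'
        · refine Relation.EqvGen.rel _ _ (Or.inr ⟨r, hr', j, ?_⟩)
          rcases hc with ⟨h1, h2, h3⟩ | ⟨h1, h2, h3⟩
          · left
            refine ⟨h1, by rw [h2]; exact ψl _, ?_⟩
            have e : j * ((L : ℤ) + 2) + r + 2 = j * (L + 2) + (r + 2) := by ring
            rw [h3, e]
            exact ψn j (r + 2) (by omega) (by omega) (by omega)
          · right
            refine ⟨h1, ?_, by rw [h3]; exact ψl _⟩
            have e : j * ((L : ℤ) + 2) + r + 1 = j * (L + 2) + (r + 1) := by ring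
            rw [h2, e]
            exact ψn j (r + 1) (by omega) (by omega) (by omega)
        · subst hr'
          rcases hc with ⟨h1, h2, h3⟩ | ⟨h1, _, _⟩
          · rw [h2, h3, ψr]
            exact Relation.EqvGen.refl _
          · exact absurd h1 ht
  · intro h
    have hh : ∀ G, Relation.EqvGen (BE α t (k + 1)) (fr L (k + 1) G) (fr L k G) := by
      intro G
      rcases hfr G with h1 | ⟨j, _, h2, h3⟩
      · rw [h1]
        exact Relation.EqvGen.refl _
      · rw [h2, h3]
        have h4 : Relation.EqvGen (BE α t (k + 1)) (Sum.inl (j * L + k)) (Sum.inr (j * (L + 2) + k + 2)) :=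
          Relation.EqvGen.rel _ _ (Or.inr ⟨k, Nat.lt_succ_self k, j, Or.inl ⟨ht, rfl, rfl⟩⟩)
        exact h4.symm _ _
    exact ((hh G).trans _ _ _ (mono _ _ h)).trans _ _ _ ((hh G').symm _ _)

/-- the regions of the pattern after `k` tiles -/
theorem reg_rowSt (α : Pat L) (t : ℕ → Prop) (k : ℕ) : k ≤ L → ∀ G G' : ℤ,
    (Reg (rowSt t α k) G G' ↔ Relation.EqvGen (BE α t k) (fr L k G) (fr L k G')) := by
  induction k with
  | zero =>
    intro _ G G'
    exact krowb_base G G'
  | succ k ih =>
    intro hk G G'
    have ih' := ih (by omega)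
    by_cases ht : t k
    · rw [rowSt_of ht]
      -- the frontier away from the cut gap
      have hfr : ∀ j s : ℤ, 0 ≤ s → s < L + 2 → s ≠ k + 2 →
          fr L (k + 1) (j * (L + 2) + s) = fr L k (j * (L + 2) + s) := by
        intro j s h1 h2 h3
        rcases eq_or_lt_of_le h1 with h4 | h4
        · rw [← h4, add_zero, fr_zero_mod, fr_zero_mod]
        · rw [fr_mod j s (by omega) h2, fr_mod j s (by omega) h2]
          by_cases c' : s ≤ k + 1
          · rw [if_pos c', if_pos (by push_cast; omega)]
          · rw [if_neg c', if_neg (by push_cast; omega)]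
      have hcut : ∀ j : ℤ, fr L (k + 1) (j * (L + 2) + (k + 2)) = Sum.inr (j * (L + 2) + (k + 2)) := by
        intro j
        rw [fr_mod j (k + 2) (by omega) (by omega), if_pos (by push_cast; omega)]
      have hiso : ∀ (j : ℤ) (u v : ℤ ⊕ ℤ), BE α t (k + 1) u v →
          u ≠ Sum.inr (j * (L + 2) + (k + 2)) ∧ v ≠ Sum.inr (j * (L + 2) + (k + 2)) := by
        intro j u v h
        have h0 := be_iso (α := α) (t := t) (k := k) (by omega) (j := j) (s := (k : ℤ) + 2) (Or.inr le_rfl)
          (by omega) (by omega) u v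
        rcases h with h | ⟨r, hr, j', hc⟩
        · exact h0 (Or.inl h)
        · rcases Nat.lt_succ_iff_lt_or_eq.1 hr with hr' | hr'
          · exact h0 (Or.inr ⟨r, hr', j', hc⟩)
          · subst hr'
            rcases hc with ⟨h1, _, _⟩ | ⟨_, h2, h3⟩
            · exact absurd ht h1
            · rw [h2, h3]
              refine ⟨?_, Sum.inl_ne_inr⟩
              intro hc
              have h4 := Sum.inr.inj hc
              have e1 := js_lt (P := (L : ℤ) + 2) (a := j') (j := j) (r := (r : ℤ) + 1) (s := (r : ℤ) + 2)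
                (by omega) (by omega) (by omega) (by omega)
              have e2 := js_lt (P := (L : ℤ) + 2) (a := j) (j := j') (r := (r : ℤ) + 2) (s := (r : ℤ) + 1)
                (by omega) (by omega) (by omega) (by omega)
              have n1 : ¬ (j' < j ∨ (j' = j ∧ (r : ℤ) + 1 < r + 2)) := fun c => by
                have := e1.2 c
                omega
              have n2 : ¬ (j < j' ∨ (j = j' ∧ (r : ℤ) + 2 < r + 1)) := fun c => by
                have := e2.2 c
                omega
              omega
      obtain ⟨j, s, hG, h1, h2⟩ := exists_js L G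
      obtain ⟨j', s', hG', h1', h2'⟩ := exists_js L G'
      rw [hG, hG']
      have small : ∀ j : ℤ, (Pat.e ((k : ℤ) + 1) (rowSt t α k)).f (j * (L + 2) + (k + 1)) =
          j * (L + 2) + (k + 1) + 1 := by
        intro j
        rw [Pat.e_f]
        unfold eFun
        rw [if_pos ⟨j, by push_cast; ring⟩]
      by_cases c : s = k + 2
      · rw [c, hcut]
        constructor
        · intro h
          have e1 : j * ((L : ℤ) + 2) + (k + 2) = j * (L + 2) + (k + 1) + 1 := by ring
          rw [e1] at h
          have := reg_small (small j) h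
          rw [← e1] at this
          rw [this, hcut]
          exact Relation.EqvGen.refl _
        · intro h
          have h3 := (gen_iso (hiso j) h).1 rfl
          have h4 : s' = k + 2 := by
            by_contra hc
            have hh := hfr j' s' h1' h2' hc
            rw [hh] at h3
            rcases eq_or_lt_of_le h1' with h4 | h4
            · rw [← h4, add_zero, fr_zero_mod] at h3
              exact Sum.inl_ne_inr h3
            · rw [fr_mod j' s' (by omega) h2'] at h3
              split_ifs at h3 with c'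
              have h5 := Sum.inr.inj h3
              have e1 := js_lt (P := (L : ℤ) + 2) (a := j') (j := j) (r := s') (s := (k : ℤ) + 2)
                (by omega) (by omega) (by omega) (by omega)
              have e2 := js_lt (P := (L : ℤ) + 2) (a := j) (j := j') (r := (k : ℤ) + 2) (s := s')
                (by omega) (by omega) (by omega) (by omega)
              have n1 : ¬ (j' < j ∨ (j' = j ∧ s' < k + 2)) := fun c => by
                have := e1.2 c
                omega
              have n2 : ¬ (j < j' ∨ (j = j' ∧ (k : ℤ) + 2 < s')) := fun c => by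
                have := e2.2 c
                omega
              omega
          rw [h4, hcut] at h3
          rw [h4, Sum.inr.inj h3]
          exact reg_refl _ _
      by_cases c' : s' = k + 2
      · rw [c', hcut]
        constructor
        · intro h
          have e1 : j' * ((L : ℤ) + 2) + (k + 2) = j' * (L + 2) + (k + 1) + 1 := by ring
          rw [e1] at h
          have := reg_small (small j') (reg_symm _ h)
          rw [← e1] at this
          rw [this, hcut]
          exact Relation.EqvGen.refl _
        · intro h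
          have h3 := (gen_iso (hiso j') h).2 rfl
          exfalso
          have hh := hfr j s h1 h2 c
          rw [hh] at h3
          rcases eq_or_lt_of_le h1 with h4 | h4
          · rw [← h4, add_zero, fr_zero_mod] at h3
            exact Sum.inl_ne_inr h3
          · rw [fr_mod j s (by omega) h2] at h3
            split_ifs at h3 with c''
            have h5 := Sum.inr.inj h3
            have e1 := js_lt (P := (L : ℤ) + 2) (a := j) (j := j') (r := s) (s := (k : ℤ) + 2)
              (by omega) (by omega) (by omega) (by omega)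
            have e2 := js_lt (P := (L : ℤ) + 2) (a := j') (j := j) (r := (k : ℤ) + 2) (s := s)
              (by omega) (by omega) (by omega) (by omega)
            have n1 : ¬ (j < j' ∨ (j = j' ∧ s < k + 2)) := fun c => by
              have := e1.2 c
              omega
            have n2 : ¬ (j' < j ∨ (j' = j ∧ (k : ℤ) + 2 < s)) := fun c => by
              have := e2.2 c
              omega
            omega
      have d1 : NCut (L + 2) ((k : ℤ) + 1) (j * (L + 2) + s) :=
        (ncut_js h1 h2 (by omega) (by omega)).2 (by omega)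
      have d2 : NCut (L + 2) ((k : ℤ) + 1) (j' * (L + 2) + s') :=
        (ncut_js h1' h2' (by omega) (by omega)).2 (by omega)
      rw [reg_e_iff d1 d2, hfr j s h1 h2 c, hfr j' s' h1' h2' c']
      have hS : ∀ u v, BE α t (k + 1) u v ↔ (BE α t k u v ∨ ∃ j : ℤ, u = Sum.inr (j * (L + 2) + k + 1) ∧
          v = Sum.inl (j * L + k + 1)) := by
        intro u v
        constructor
        · rintro (h | ⟨r, hr, j, hc⟩)
          · exact Or.inl (Or.inl h)
          · rcases Nat.lt_succ_iff_lt_or_eq.1 hr with hr' | hr'
            · exact Or.inl (Or.inr ⟨r, hr', j, hc⟩)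
            · subst hr'
              rcases hc with ⟨h1, _, _⟩ | ⟨_, h2, h3⟩
              · exact absurd ht h1
              · exact Or.inr ⟨j, h2, h3⟩
        · rintro ((h | ⟨r, hr, j, hc⟩) | ⟨j, h2, h3⟩)
          · exact Or.inl h
          · exact Or.inr ⟨r, by omega, j, hc⟩
          · exact Or.inr ⟨k, Nat.lt_succ_self k, j, Or.inr ⟨ht, h2, h3⟩⟩
      have hS' : BE α t (k + 1) = fun u v => BE α t k u v ∨ ∃ j : ℤ, u = Sum.inr (j * (L + 2) + k + 1) ∧
          v = Sum.inl (j * L + k + 1) := by
        funext u v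
        exact propext (hS u v)
      have hM : Mr (rowSt t α k) ((k : ℤ) + 1) = fun a b => Reg (rowSt t α k) a b ∨
          (b = a + 2 ∧ ((L + 2 : ℕ) : ℤ) ∣ a - (k + 1)) := rfl
      rw [hS', hM]
      -- the frontier at the two gaps which are merged
      have f1 : ∀ j : ℤ, fr L k (j * (L + 2) + (k + 1)) = Sum.inr (j * (L + 2) + k + 1) := by
        intro j
        rw [fr_mod j (k + 1) (by omega) (by omega), if_pos le_rfl]
        congr 1
        ring
      have f2 : ∀ j : ℤ, fr L k (j * (L + 2) + (k + 1) + 2) = Sum.inl (j * L + k + 1) := by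
        intro j
        rcases Nat.lt_or_ge (k + 1) L with hk' | hk'
        · have e1 : j * ((L : ℤ) + 2) + (k + 1) + 2 = j * (L + 2) + (k + 3) := by ring
          rw [e1, fr_mod j (k + 3) (by omega) (by omega), if_neg (by omega)]
          congr 1
          ring
        · have hk2 : (k : ℤ) + 1 = L := by omega
          have e1 : j * ((L : ℤ) + 2) + (k + 1) + 2 = (j + 1) * (L + 2) := by rw [hk2]; ring
          rw [e1, fr_zero_mod]
          congr 1
          have e2 : (j + 1) * (L : ℤ) = j * L + L := by ring
          rw [e2, ← hk2]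
          ring
      refine gen_merge (fun a b => ih' a b) ?_ ?_ _ _
      · rintro a b ⟨h3, m, h4⟩
        have e1 : a = m * (L + 2) + (k + 1) := by
          push_cast at h4
          linarith
        refine ⟨m, ?_, ?_⟩
        · rw [e1, f1]
        · rw [h3, e1, f2]
      · rintro u v ⟨m, h3, h4⟩
        refine ⟨m * (L + 2) + (k + 1), m * (L + 2) + (k + 1) + 2, ⟨rfl, m, by push_cast; ring⟩, ?_, ?_⟩
        · rw [h3, f1]
        · rw [h4, f2]
    · rw [rowSt_not ht, ih' G G']
      exact (krowb_not (by omega) ht G G').symm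

end CY
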