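import Pool.Agent.Lib.MP_216314_pr.K.KFar
import Pool.Agent.Lib.MP_216314_pr.Z.Til

/-!
# The law of the pattern after `m` rows of fair tiles is `TT^m` applied to the start pattern
-/

set_option autoImplicit false

noncomputable section

namespace CY

open Finset FKI FKP

theorem rowSt_eq_tl {L : ℕ} {t : ℕ → Prop} {t' : ℕ → Bool} (α : Pat L) (k : ℕ) (h : ∀ i < k, (t i ↔ t' i = true)) :
    rowSt t α k = tl t' α k := by
  induction k with
  | zero => rfl
  | succ k ih =>
    have ih' := ih (fun i hi => h i (by omega))
    have hk := h k (by omega)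
    by_cases c : t k
    · rw [rowSt_of c, ih']
      show _ = if t' k then _ else _
      rw [if_pos (hk.1 c)]
    · rw [rowSt_not c, ih']
      show _ = if t' k then _ else _
      rw [if_neg (fun d => c (hk.2 d))]

theorem rowP_eq {L : ℕ} {t : ℕ → Prop} {t' : Fin L → Bool} (α : Pat L) (h : ∀ k : Fin L, (t k ↔ t' k = true)) :
    rowP t α = row (ext t') α := by
  unfold rowP row
  rw [rowSt_eq_tl (t' := ext t') α L]
  intro i hi
  unfold ext
  rw [dif_pos hi]
  exact h ⟨i, hi⟩

theorem rowSt_congr {L : ℕ} {t t' : ℕ → Prop} (α : Pat L) (k : ℕ) (h : ∀ i < k, (t i ↔ t' i)) :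
    rowSt t α k = rowSt t' α k := by
  induction k with
  | zero => rfl
  | succ k ih =>
    have ih' := ih (fun i hi => h i (by omega))
    have hk := h k (by omega)
    by_cases c : t k
    · rw [rowSt_of c, rowSt_of (hk.1 c), ih']
    · rw [rowSt_not c, rowSt_not (fun d => c (hk.2 d)), ih']

theorem pats_congr {L : ℕ} {t t' : ℕ → ℕ → Prop} (α : Pat L) (m : ℕ) (h : ∀ i < m, ∀ k < L, (t i k ↔ t' i k)) :
    pats t α m = pats t' α m := by
  induction m with
  | zero => rfl
  | succ m ih =>
    show rowP (t m) (pats t α m) = rowP (t' m) (pats t' α m)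
    rw [ih (fun i hi => h i (by omega))]
    unfold rowP
    rw [rowSt_congr (pats t' α m) L (h m (by omega))]

section law

variable {L : ℕ} (eo : ℕ → ℕ → Edge) (par : ℕ → ℕ → Prop)

/-- letters of a configuration -/
def LT (ω : Finset Edge) (h k : ℕ) : Prop := ¬ (par h k ↔ eo h k ∈ ω)

/-- the edges of the first `h` rows -/
def RE (L : ℕ) (h : ℕ) : Finset Edge := (range h ×ˢ range L).image (fun p => eo p.1 p.2)

theorem mem_RE {h : ℕ} {e : Edge} : e ∈ RE eo L h ↔ ∃ i k : ℕ, i < h ∧ k < L ∧ eo i k = e := by
  unfold RE
  rw [mem_image]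
  constructor
  · rintro ⟨p, h1, h2⟩
    rw [mem_product, mem_range, mem_range] at h1
    exact ⟨p.1, p.2, h1.1, h1.2, h2⟩
  · rintro ⟨i, k, h1, h2, h3⟩
    exact ⟨(i, k), by rw [mem_product, mem_range, mem_range]; exact ⟨h1, h2⟩, h3⟩

open Classical in
/-- the edges of the row `h` with letters `t` -/
def RH (L : ℕ) (h : ℕ) (t : Fin L → Bool) : Finset Edge :=
  ((univ : Finset (Fin L)).filter (fun k : Fin L => (par h k ↔ t k = false))).image (fun k : Fin L => eo h k)

open Classical in
theorem law_rows {M : ℕ} (hinj : ∀ h k h' k' : ℕ, h < M → k < L → h' < M → k' < L → eo h k = eo h' k' →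
    h = h' ∧ k = k') (α : Pat L) : ∀ h : ℕ, h ≤ M → ∀ b : Pat L,
    (∑ ω ∈ (RE eo L h).powerset, if pats (LT eo par ω) α h = b then (1 : ℂ) else 0) =
      2 ^ (RE eo L h).card * ((⇑(TT : V L →ₗ[ℂ] V L))^[h] (Pi.single α 1)) b := by
  intro h
  induction h with
  | zero =>
    intro _ b
    have e : RE eo L 0 = ∅ := by
      unfold RE
      simp
    rw [e, powerset_empty, sum_singleton, card_empty, pow_zero, one_mul]
    show (if α = b then (1 : ℂ) else 0) = (Pi.single α 1 : V L) b
    rw [Pi.single_apply]
    by_cases c : α = b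
    · rw [if_pos c, if_pos c.symm]
    · rw [if_neg c, if_neg (fun d => c d.symm)]
  | succ h ih =>
    intro hM b
    have ih' := ih (by omega)
    have memH : ∀ (t : Fin L → Bool) (e : Edge), e ∈ RH eo par L h t ↔ ∃ k : Fin L, (par h k ↔ t k = false) ∧ eo h k = e := by
      intro t e
      unfold RH
      rw [mem_image]
      constructor
      · rintro ⟨k, h1, h2⟩
        exact ⟨k, (mem_filter.1 h1).2, h2⟩
      · rintro ⟨k, h1, h2⟩
        exact ⟨k, mem_filter.2 ⟨mem_univ _, h1⟩, h2⟩
    have notE : ∀ k : ℕ, k < L → eo h k ∉ RE eo L h := by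
      intro k hk hc
      obtain ⟨i, k', h1, h2, h3⟩ := (mem_RE eo).1 hc
      have := (hinj i k' h k (by omega) h2 (by omega) hk h3).1
      omega
    have memHk : ∀ (t : Fin L → Bool) (k : Fin L), eo h k ∈ RH eo par L h t ↔ (par h k ↔ t k = false) := by
      intro t k
      rw [memH]
      constructor
      · rintro ⟨k', h1, h2⟩
        have := (hinj h k' h k (by omega) k'.2 (by omega) k.2 h2).2
        have e : k' = k := Fin.ext this
        rwa [e] at h1
      · intro h1
        exact ⟨k, h1, rfl⟩
    have disj : ∀ (t : Fin L → Bool) (e : Edge), e ∈ RH eo par L h t → e ∉ RE eo L h := by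
      intro t e he
      obtain ⟨k, _, h2⟩ := (memH t e).1 he
      rw [← h2]
      exact notE k k.2
    have hsucc : ∀ e, e ∈ RE eo L (h + 1) ↔ e ∈ RE eo L h ∨ ∃ k : ℕ, k < L ∧ eo h k = e := by
      intro e
      rw [mem_RE, mem_RE]
      constructor
      · rintro ⟨i, k, h1, h2, h3⟩
        rcases Nat.lt_succ_iff_lt_or_eq.1 h1 with h4 | h4
        · exact Or.inl ⟨i, k, h4, h2, h3⟩
        · rw [h4] at h3
          exact Or.inr ⟨k, h2, h3⟩
      · rintro (⟨i, k, h1, h2, h3⟩ | ⟨k, h2, h3⟩)
        · exact ⟨i, k, by omega, h2, h3⟩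
        · exact ⟨h, k, by omega, h2, h3⟩
    -- the bijection
    have hbij : ∀ G : Finset Edge → ℂ, ∑ ω ∈ (RE eo L (h + 1)).powerset, G ω =
        ∑ ω ∈ (RE eo L h).powerset, ∑ t : Fin L → Bool, G (ω ∪ RH eo par L h t) := by
      intro G
      rw [← sum_product' ((RE eo L h).powerset) (univ : Finset (Fin L → Bool))
        (fun ω t => G (ω ∪ RH eo par L h t))]
      refine sum_nbij' (fun ω => (ω ∩ RE eo L h, fun k : Fin L => decide (LT eo par ω h k)))
        (fun p => p.1 ∪ RH eo par L h p.2) ?_ ?_ ?_ ?_ ?_
      · intro ω _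
        rw [mem_product]
        exact ⟨mem_powerset.2 inter_subset_right, mem_univ _⟩
      · rintro ⟨ω, t⟩ hp
        rw [mem_product] at hp
        refine mem_powerset.2 fun e he => ?_
        rw [hsucc]
        rcases mem_union.1 he with he | he
        · exact Or.inl (mem_powerset.1 hp.1 he)
        · obtain ⟨k, _, h2⟩ := (memH t e).1 he
          exact Or.inr ⟨k, k.2, h2⟩
      · intro ω hω
        ext e
        rw [mem_union, mem_inter, memH]
        constructor
        · rintro (h1 | ⟨k, h1, h2⟩)
          · exact h1.1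
          · rw [decide_eq_false_iff_not] at h1
            unfold LT at h1
            rw [not_not] at h1
            rw [← h2]
            tauto
        · intro he
          rcases (hsucc e).1 (mem_powerset.1 hω he) with h1 | ⟨k, h1, h2⟩
          · exact Or.inl ⟨he, h1⟩
          · refine Or.inr ⟨⟨k, h1⟩, ?_, h2⟩
            rw [decide_eq_false_iff_not]
            unfold LT
            rw [not_not]
            show par h k ↔ (par h k ↔ eo h k ∈ ω)
            rw [h2]
            tauto
      · rintro ⟨ω, t⟩ hp
        rw [mem_product] at hp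
        have hω := mem_powerset.1 hp.1
        refine Prod.ext ?_ ?_
        · ext e
          rw [mem_inter, mem_union]
          constructor
          · rintro ⟨h1 | h1, h2⟩
            · exact h1
            · exact absurd h2 (disj t e h1)
          · intro h1
            exact ⟨Or.inl h1, hω h1⟩
        · funext k
          show decide (LT eo par (ω ∪ RH eo par L h t) h k) = t k
          have h1 : eo h k ∈ ω ∪ RH eo par L h t ↔ (par h k ↔ t k = false) := by
            rw [mem_union, memHk]
            exact ⟨fun c => c.resolve_left (fun d => notE k k.2 (hω d)), Or.inr⟩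
          cases ht : t k
          · rw [decide_eq_false_iff_not]
            unfold LT
            rw [h1, ht]
            tauto
          · rw [decide_eq_true_iff]
            unfold LT
            rw [h1, ht]
            simp only [Bool.true_eq_false, iff_false]
            tauto
      · intro ω hω
        congr 1
        ext e
        rw [mem_union, mem_inter, memH]
        constructor
        · intro he
          rcases (hsucc e).1 (mem_powerset.1 hω he) with h1 | ⟨k, h1, h2⟩
          · exact Or.inl ⟨he, h1⟩
          · refine Or.inr ⟨⟨k, h1⟩, ?_, h2⟩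
            rw [decide_eq_false_iff_not]
            unfold LT
            rw [not_not]
            show par h k ↔ (par h k ↔ eo h k ∈ ω)
            rw [h2]
            tauto
        · rintro (h1 | ⟨k, h1, h2⟩)
          · exact h1.1
          · rw [decide_eq_false_iff_not] at h1
            unfold LT at h1
            rw [not_not] at h1
            rw [← h2]
            tauto
    have hG : ∀ ω ∈ (RE eo L h).powerset, ∀ t : Fin L → Bool,
        (if pats (LT eo par (ω ∪ RH eo par L h t)) α (h + 1) = b then (1 : ℂ) else 0) =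
        if row (ext t) (pats (LT eo par ω) α h) = b then (1 : ℂ) else 0 := by
      intro ω hω t
      have hω' := mem_powerset.1 hω
      have e1 : pats (LT eo par (ω ∪ RH eo par L h t)) α h = pats (LT eo par ω) α h := by
        refine pats_congr α h fun i hi k hk => ?_
        unfold LT
        have : eo i k ∈ ω ∪ RH eo par L h t ↔ eo i k ∈ ω := by
          rw [mem_union]
          exact ⟨fun c => c.resolve_right (fun d => disj t _ d ((mem_RE eo).2 ⟨i, k, hi, hk, rfl⟩)), Or.inl⟩
        rw [this]
      have e2 : pats (LT eo par (ω ∪ RH eo par L h t)) α (h + 1) = row (ext t) (pats (LT eo par ω) α h) := by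
        show rowP (LT eo par (ω ∪ RH eo par L h t) h) (pats (LT eo par (ω ∪ RH eo par L h t)) α h) = _
        rw [e1]
        refine rowP_eq _ fun k => ?_
        have h1 : eo h k ∈ ω ∪ RH eo par L h t ↔ (par h k ↔ t k = false) := by
          rw [mem_union, memHk]
          exact ⟨fun c => c.resolve_left (fun d => notE k k.2 (hω' d)), Or.inr⟩
        unfold LT
        rw [h1]
        cases ht : t k
        · simp only [Bool.false_eq_true, iff_true, iff_false, not_not]
        · simp only [Bool.true_eq_false, iff_false, iff_true]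
          tauto
      rw [e2]
    have hcard : (RE eo L (h + 1)).card = (RE eo L h).card + L := by
      have e1 : RE eo L (h + 1) = RE eo L h ∪ (range L).image (fun k => eo h k) := by
        ext e
        rw [hsucc, mem_union, mem_image]
        constructor
        · rintro (h1 | ⟨k, h1, h2⟩)
          · exact Or.inl h1
          · exact Or.inr ⟨k, mem_range.2 h1, h2⟩
        · rintro (h1 | ⟨k, h1, h2⟩)
          · exact Or.inl h1
          · exact Or.inr ⟨k, mem_range.1 h1, h2⟩
      rw [e1, card_union_of_disjoint, card_image_of_injOn, card_range]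
      · intro k hk k' hk' he
        have h1 := mem_range.1 (mem_coe.1 hk)
        have h2 := mem_range.1 (mem_coe.1 hk')
        exact (hinj h k h k' (by omega) h1 (by omega) h2 he).2
      · rw [disjoint_left]
        intro e h1 h2
        obtain ⟨k, h3, h4⟩ := mem_image.1 h2
        rw [← h4] at h1
        exact notE k (mem_range.1 h3) h1
    rw [hbij, sum_congr rfl (fun ω hω => sum_congr rfl (fun t _ => hG ω hω t)), hcard,
      Function.iterate_succ_apply']
    generalize (⇑(TT : V L →ₗ[ℂ] V L))^[h] (Pi.single α 1) = v at ih' ⊢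
    have eTT : (TT v : V L) b = ((2 : ℂ) ^ L)⁻¹ * ∑ t : Fin L → Bool, ∑ a, if row (ext t) a = b then v a else 0 := by
      unfold TT
      rw [LinearMap.smul_apply, LinearMap.sum_apply, Pi.smul_apply, Finset.sum_apply, smul_eq_mul]
      rfl
    rw [eTT, pow_add]
    have h2 : (2 : ℂ) ^ L ≠ 0 := pow_ne_zero _ two_ne_zero
    have e3 : (2 : ℂ) ^ (RE eo L h).card * 2 ^ L * (((2 : ℂ) ^ L)⁻¹ *
        ∑ t : Fin L → Bool, ∑ a, if row (ext t) a = b then v a else 0) =
        ∑ t : Fin L → Bool, ∑ a, if row (ext t) a = b then (2 : ℂ) ^ (RE eo L h).card * v a else 0 := by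
      have : (2 : ℂ) ^ (RE eo L h).card * 2 ^ L * (((2 : ℂ) ^ L)⁻¹ *
        ∑ t : Fin L → Bool, ∑ a, if row (ext t) a = b then v a else 0) = (2 : ℂ) ^ (RE eo L h).card *
        ∑ t : Fin L → Bool, ∑ a, if row (ext t) a = b then v a else 0 := by
        field_simp
      rw [this, mul_sum]
      refine sum_congr rfl fun t _ => ?_
      rw [mul_sum]
      refine sum_congr rfl fun a _ => ?_
      rw [mul_ite, mul_zero]
    rw [e3, sum_comm]
    refine sum_congr rfl fun t _ => ?_
    have e4 : ∀ a, (if row (ext t) a = b then (2 : ℂ) ^ (RE eo L h).card * v a else 0) =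
        ∑ ω ∈ (RE eo L h).powerset, if row (ext t) a = b then (if pats (LT eo par ω) α h = a then (1 : ℂ) else 0) else 0 := by
      intro a
      rw [← ih' a]
      split_ifs
      · rfl
      · rw [sum_const_zero]
    rw [sum_congr rfl (fun a _ => e4 a), sum_comm]
    refine sum_congr rfl fun ω _ => ?_
    rw [sum_eq_single (pats (LT eo par ω) α h)]
    · rw [if_pos rfl]
    · intro a _ ha
      split_ifs with c1 c2
      · exact absurd c2.symm ha
      · rfl
      · rfl
    · intro hc
      exact absurd (mem_univ _) hc

end law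

end CY
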